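import Pool.Agent.Lib_helper20.SRO.Model

/-!
# Fork programs

Nondeterministic branching programs in which the computation may fork: a certificate is a tree
instead of a walk. These are the Boolean circuits with AND and OR gates over literals (with cycles
allowed): a node is a gate, a fork is an AND, the choice between several edges and forks is an OR.
-/

set_option autoImplicit false

namespace Pool.Agent.CFT

open Finset Pool.Agent.Lib_helper20.SRO

/-- A fork program with the set `N` of nodes over the Boolean variables `V`. An edge from a node to
another one carries a list of tests `x = c`; a fork leads from a node to two nodes; some nodes are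
final. -/
structure FP (V N : Type) where
  source : N
  edge : N → List (V × Bool) → N → Prop
  fork : N → N → N → Prop
  fin : N → Prop

/-- `Der G v l`: there is a tree (proof tree, certificate) from the node `v` whose tests are the
list `l`. -/
inductive Der {V N : Type} (G : FP V N) : N → List (V × Bool) → Prop
  | fin {v : N} : G.fin v → Der G v []
  | edge {v u : N} {t l : List (V × Bool)} : G.edge v t u → Der G u l → Der G v (t ++ l)
  | fork {v u w : N} {l₁ l₂ : List (V × Bool)} : G.fork v u w → Der G u l₁ → Der G w l₂ →
      Der G v (l₁ ++ l₂)

/-- `b` is accepted if some tree from the source has only tests that `b` passes. -/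
def FP.Accepts {V N : Type} (G : FP V N) (b : V → Bool) : Prop :=
  ∃ l, Der G G.source l ∧ Agrees b l

def FP.Computes {V N : Type} (G : FP V N) (f : (V → Bool) → Bool) : Prop :=
  ∀ b, G.Accepts b ↔ f b = true

/-- Every edge has at most `s` tests. -/
def FP.Block {V N : Type} (G : FP V N) (s : ℕ) : Prop :=
  ∀ v t u, G.edge v t u → t.length ≤ s

/-- Every accepted input has an accepting tree on which at most `r` variables are tested more than
once. -/
def FP.FewRereads {V N : Type} [Fintype V] [DecidableEq V] (G : FP V N) (r : ℕ) : Prop :=
  ∀ b, G.Accepts b → ∃ l, Der G G.source l ∧ Agrees b l ∧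
    (univ.filter (fun x => 2 ≤ (l.map Prod.fst).count x)).card ≤ r

/-- Every accepted input has an accepting tree with at most `r` tests more than there are
variables. -/
def FP.Short {V N : Type} [Fintype V] (G : FP V N) (r : ℕ) : Prop :=
  ∀ b, G.Accepts b → ∃ l, Der G G.source l ∧ Agrees b l ∧ l.length ≤ Fintype.card V + r

end Pool.Agent.CFT
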