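import Pool.Agent.CFT.Stmts

/-!
# Fork programs, module ASM: assembling the pieces
-/

set_option autoImplicit false

namespace Pool.Agent.CFT

namespace ASM

variable {V N : Type} {G : FP V N}

theorem fill {S : N → Prop} {A : V × Bool → Prop}
    (hS : ∀ u, S u → ∃ l, Der G u l ∧ ∀ p ∈ l, A p) {v : N} {l : List (V × Bool)}
    (h : Ctx G S v l) (hl : ∀ p ∈ l, A p) : ∃ l', Der G v l' ∧ ∀ p ∈ l', A p := by
  induction h with
  | hole hv => exact hS _ hv
  | fin hv => exact ⟨[], Der.fin hv, hl⟩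
  | edge he _ ih =>
    obtain ⟨l', h1, h2⟩ := ih fun p hp => hl p (List.mem_append_right _ hp)
    refine ⟨_, Der.edge he h1, fun p hp => ?_⟩
    rcases List.mem_append.1 hp with hp | hp
    · exact hl p (List.mem_append_left _ hp)
    · exact h2 p hp
  | fork hf _ _ ih1 ih2 =>
    obtain ⟨l1, h1, h2⟩ := ih1 fun p hp => hl p (List.mem_append_left _ hp)
    obtain ⟨l2, h3, h4⟩ := ih2 fun p hp => hl p (List.mem_append_right _ hp)
    refine ⟨_, Der.fork hf h1 h3, fun p hp => ?_⟩
    rcases List.mem_append.1 hp with hp | hp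
    · exact h2 p hp
    · exact h4 p hp

theorem main {K : ℕ} {root : Fin K → N} {ls : Fin K → List (V × Bool)} (h : Dec G root ls) :
    ∀ (d : ℕ) (i : Fin K), K - (i : ℕ) = d →
      ∃ l, Der G (root i) l ∧ ∀ p ∈ l, ∃ j, p ∈ ls j := by
  intro d
  induction d using Nat.strong_induction_on with
  | _ d ih =>
    intro i hi
    refine fill (A := fun p => ∃ j, p ∈ ls j) ?_ (h i) (fun p hp => ⟨i, hp⟩)
    rintro u ⟨j, hij, rfl⟩
    refine ih (K - (j : ℕ)) ?_ j rfl
    have h1 : (i : ℕ) < (j : ℕ) := hij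
    have h2 := j.isLt
    omega

end ASM

theorem t_ASM : Stmt_ASM := by
  intro V N G K root ls h i
  exact ASM.main h _ i rfl

end Pool.Agent.CFT
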