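import Pool.Agent.CFT.Stmts

/-!
# Fork programs, module CUT: every tree can be cut into few pieces
-/

set_option autoImplicit false

namespace Pool.Agent.CFT

open Finset Pool.Agent.Lib_helper20.SRO

namespace CUT

variable {V N : Type}

/-- The open leaves of a piece are roots of later pieces. -/
def Pieces (G : FP V N) : List (N × List (V × Bool)) → Prop
  | [] => True
  | p :: F => Ctx G (fun u => u ∈ F.map Prod.fst) p.1 p.2 ∧ Pieces G F

theorem ctx_mono {G : FP V N} {S S' : N → Prop} (h : ∀ u, S u → S' u) {v : N}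
    {l : List (V × Bool)} (hc : Ctx G S v l) : Ctx G S' v l := by
  induction hc with
  | hole hv => exact Ctx.hole (h _ hv)
  | fin hv => exact Ctx.fin hv
  | edge he _ ih => exact Ctx.edge he ih
  | fork hf _ _ ih₁ ih₂ => exact Ctx.fork hf ih₁ ih₂

theorem pieces_append {G : FP V N} (F₁ F₂ : List (N × List (V × Bool))) (h₁ : Pieces G F₁)
    (h₂ : Pieces G F₂) : Pieces G (F₁ ++ F₂) := by
  induction F₁ with
  | nil => exact h₂
  | cons p F ih =>
    refine ⟨ctx_mono ?_ h₁.1, ih h₁.2⟩
    intro u hu
    have hu' : u ∈ (F ++ F₂).map Prod.fst := by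
      rw [List.map_append, List.mem_append]
      exact Or.inl hu
    exact hu'

/-- Total length of the pieces. -/
def tot (F : List (N × List (V × Bool))) : ℕ := (F.map fun p => p.2.length).sum

theorem tot_cons (p : N × List (V × Bool)) (F : List (N × List (V × Bool))) :
    tot (p :: F) = p.2.length + tot F := by
  simp [tot]

theorem tot_append (F₁ F₂ : List (N × List (V × Bool))) :
    tot (F₁ ++ F₂) = tot F₁ + tot F₂ := by
  simp [tot]

theorem main {G : FP V N} {h s : ℕ} (hs : G.Block s) (hh : 0 < h) {v : N}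
    {l : List (V × Bool)} (hd : Der G v l) :
    ∃ (F : List (N × List (V × Bool))) (l₀ : List (V × Bool)),
      Ctx G (fun u => u ∈ F.map Prod.fst) v l₀ ∧ Pieces G F ∧ l₀.length < h ∧
      (∀ p ∈ F, h ≤ p.2.length ∧ p.2.length ≤ 2 * h + s) ∧
      l₀.length + tot F = l.length ∧ (∀ x ∈ l₀, x ∈ l) ∧ ∀ p ∈ F, ∀ x ∈ p.2, x ∈ l := by
  induction hd with
  | fin hv =>
    refine ⟨[], [], Ctx.fin hv, trivial, hh, ?_, ?_, ?_, ?_⟩
    · intro p hp
      exact absurd hp List.not_mem_nil
    · rfl
    · intro x hx
      exact hx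
    · intro p hp
      exact absurd hp List.not_mem_nil
  | @edge v u t l he hd ih =>
    obtain ⟨F, l₀, hc, hP, hl, hF, htot, hm, hmF⟩ := ih
    have hcl : Ctx G (fun u => u ∈ F.map Prod.fst) v (t ++ l₀) := Ctx.edge he hc
    have ht := hs v t u he
    have hm' : ∀ x ∈ t ++ l₀, x ∈ t ++ l := by
      intro x hx
      rw [List.mem_append] at hx ⊢
      exact hx.imp id (hm x)
    have hmF' : ∀ p ∈ F, ∀ x ∈ p.2, x ∈ t ++ l := by
      intro p hp x hx
      rw [List.mem_append]
      exact Or.inr (hmF p hp x hx)
    have hlen : (t ++ l₀).length = t.length + l₀.length := List.length_append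
    have hlen' : (t ++ l).length = t.length + l.length := List.length_append
    by_cases hlt : (t ++ l₀).length < h
    · refine ⟨F, t ++ l₀, hcl, hP, hlt, hF, ?_, hm', hmF'⟩
      omega
    · refine ⟨(v, t ++ l₀) :: F, [], Ctx.hole ?_, ⟨hcl, hP⟩, hh, ?_, ?_, ?_, ?_⟩
      · simp
      · intro p hp
        rw [List.mem_cons] at hp
        rcases hp with rfl | hp
        · constructor
          · simp only
            omega
          · simp only
            omega
        · exact hF p hp
      · rw [tot_cons]
        simp only [List.length_nil]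
        omega
      · intro x hx
        exact absurd hx List.not_mem_nil
      · intro p hp
        rw [List.mem_cons] at hp
        rcases hp with rfl | hp
        · exact hm'
        · exact hmF' p hp
  | @fork v u w l₁ l₂ hf hd₁ hd₂ ih₁ ih₂ =>
    obtain ⟨F₁, m₁, hc₁, hP₁, hl₁, hF₁, htot₁, hm₁, hmF₁⟩ := ih₁
    obtain ⟨F₂, m₂, hc₂, hP₂, hl₂, hF₂, htot₂, hm₂, hmF₂⟩ := ih₂
    have hcl : Ctx G (fun u => u ∈ (F₁ ++ F₂).map Prod.fst) v (m₁ ++ m₂) := by
      refine Ctx.fork hf (ctx_mono ?_ hc₁) (ctx_mono ?_ hc₂)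
      · intro x hx
        rw [List.map_append, List.mem_append]
        exact Or.inl hx
      · intro x hx
        rw [List.map_append, List.mem_append]
        exact Or.inr hx
    have hP := pieces_append F₁ F₂ hP₁ hP₂
    have hF : ∀ p ∈ F₁ ++ F₂, h ≤ p.2.length ∧ p.2.length ≤ 2 * h + s := by
      intro p hp
      rw [List.mem_append] at hp
      exact hp.elim (hF₁ p) (hF₂ p)
    have hm' : ∀ x ∈ m₁ ++ m₂, x ∈ l₁ ++ l₂ := by
      intro x hx
      rw [List.mem_append] at hx ⊢
      exact hx.imp (hm₁ x) (hm₂ x)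
    have hmF' : ∀ p ∈ F₁ ++ F₂, ∀ x ∈ p.2, x ∈ l₁ ++ l₂ := by
      intro p hp x hx
      rw [List.mem_append] at hp ⊢
      exact hp.imp (fun hp => hmF₁ p hp x hx) (fun hp => hmF₂ p hp x hx)
    have hlen : (m₁ ++ m₂).length = m₁.length + m₂.length := List.length_append
    have hlen' : (l₁ ++ l₂).length = l₁.length + l₂.length := List.length_append
    by_cases hlt : (m₁ ++ m₂).length < h
    · refine ⟨F₁ ++ F₂, m₁ ++ m₂, hcl, hP, hlt, hF, ?_, hm', hmF'⟩
      rw [tot_append]
      omega
    · refine ⟨(v, m₁ ++ m₂) :: (F₁ ++ F₂), [], Ctx.hole ?_, ⟨hcl, hP⟩, hh, ?_, ?_, ?_, ?_⟩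
      · simp
      · intro p hp
        rw [List.mem_cons] at hp
        rcases hp with rfl | hp
        · constructor
          · simp only
            omega
          · simp only
            omega
        · exact hF p hp
      · rw [tot_cons, tot_append]
        simp only [List.length_nil]
        omega
      · intro x hx
        exact absurd hx List.not_mem_nil
      · intro p hp
        rw [List.mem_cons] at hp
        rcases hp with rfl | hp
        · exact hm'
        · exact hmF' p hp

theorem mul_le_tot {h : ℕ} (F : List (N × List (V × Bool))) (hF : ∀ p ∈ F, h ≤ p.2.length) :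
    h * F.length ≤ tot F := by
  induction F with
  | nil => simp [tot]
  | cons p F ih =>
    rw [tot_cons, List.length_cons, Nat.mul_add, Nat.mul_one]
    have h1 := ih (fun q hq => hF q (List.mem_cons_of_mem _ hq))
    have h2 := hF p List.mem_cons_self
    omega

theorem pieces_get {G : FP V N} (L : List (N × List (V × Bool))) (hL : Pieces G L) :
    ∀ (i : ℕ) (hi : i < L.length),
      Ctx G (fun u => ∃ (j : ℕ) (hj : j < L.length), i < j ∧ (L[j]).1 = u) (L[i]).1 (L[i]).2 := by
  induction L with
  | nil =>
    intro i hi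
    exact absurd hi (Nat.not_lt_zero i)
  | cons p F ih =>
    intro i hi
    cases i with
    | zero =>
      refine ctx_mono ?_ hL.1
      intro u hu
      rw [List.mem_map] at hu
      obtain ⟨q, hq, rfl⟩ := hu
      obtain ⟨j, hj, rfl⟩ := List.getElem_of_mem hq
      exact ⟨j + 1, by simpa using hj, Nat.succ_pos j, rfl⟩
    | succ i =>
      have hi' : i < F.length := by simpa using hi
      refine ctx_mono ?_ (ih hL.2 i hi')
      rintro u ⟨j, hj, hij, hu⟩
      exact ⟨j + 1, by simpa using hj, Nat.succ_lt_succ hij, hu⟩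

theorem pieces_replicate {G : FP V N} (v : N) (l₀ : List (V × Bool))
    (F : List (N × List (V × Bool))) (hF : Pieces G ((v, l₀) :: F)) (k : ℕ) :
    Pieces G (List.replicate k (v, []) ++ (v, l₀) :: F) := by
  induction k with
  | zero => exact hF
  | succ k ih =>
    rw [List.replicate_succ, List.cons_append]
    refine ⟨Ctx.hole ?_, ih⟩
    simp

theorem toFin {G : FP V N} {b : ℕ} {l : List (V × Bool)} (v : N) (n : ℕ)
    (L : List (N × List (V × Bool))) (hn : L.length = n + 1)
    (hP : Pieces G L) (hv : (L[0]'(by omega)).1 = v) (hb : ∀ p ∈ L, p.2.length ≤ b)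
    (hm : ∀ p ∈ L, ∀ x ∈ p.2, x ∈ l) :
    ∃ (root : Fin (n + 1) → N) (ls : Fin (n + 1) → List (V × Bool)), root 0 = v ∧
      Dec G root ls ∧ (∀ i, (ls i).length ≤ b) ∧ ∑ i, (ls i).length = tot L ∧
      ∀ i, ∀ p ∈ ls i, p ∈ l := by
  refine ⟨fun i => (L[i.1]'(by omega)).1, fun i => (L[i.1]'(by omega)).2, hv, ?_, ?_, ?_, ?_⟩
  · intro i
    refine ctx_mono ?_ (pieces_get L hP i.1 (by omega))
    rintro u ⟨j, hj, hij, hu⟩
    exact ⟨⟨j, by omega⟩, hij, hu⟩
  · intro i
    exact hb _ (List.getElem_mem _)
  · have h1 : L.map (fun p => p.2.length) =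
        List.ofFn fun i : Fin (n + 1) => (L[i.1]'(by omega)).2.length := by
      apply List.ext_getElem
      · simp [hn]
      · intro i h1 h2
        rw [List.getElem_map, List.getElem_ofFn]
    rw [tot, h1, List.sum_ofFn]
  · intro i
    exact hm _ (List.getElem_mem _)

end CUT

theorem t_CUT : Stmt_CUT := by
  intro V N G h s K v l hs hd hl
  have hh : 0 < h := by
    rcases Nat.eq_zero_or_pos h with h0 | h0
    · rw [h0, Nat.zero_mul] at hl
      exact absurd hl (Nat.not_lt_zero _)
    · exact h0
  obtain ⟨F, l₀, hc, hP, hl₀, hF, htot, hm, hmF⟩ := CUT.main hs hh hd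
  have h1 := CUT.mul_le_tot F (fun p hp => (hF p hp).1)
  have h2 : F.length < K + 1 := by
    by_contra hcon
    have h3 : h * (K + 1) ≤ h * F.length := Nat.mul_le_mul_left h (by omega)
    omega
  have hP' : CUT.Pieces G ((v, l₀) :: F) := ⟨hc, hP⟩
  have hP'' := CUT.pieces_replicate v l₀ F hP' (K - F.length)
  have hlen : (List.replicate (K - F.length) (v, ([] : List (V × Bool))) ++
      (v, l₀) :: F).length = K + 1 := by
    rw [List.length_append, List.length_replicate, List.length_cons]
    omega
  have htot' : CUT.tot (List.replicate (K - F.length) (v, ([] : List (V × Bool))) ++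
      (v, l₀) :: F) = l.length := by
    rw [CUT.tot_append, CUT.tot_cons]
    have : CUT.tot (List.replicate (K - F.length) (v, ([] : List (V × Bool)))) = 0 := by
      simp [CUT.tot]
    rw [this]
    simp only
    omega
  obtain ⟨root, ls, a1, a2, a3, a4, a5⟩ := CUT.toFin (b := 2 * h + s) (l := l) v K _ hlen hP''
    (by
      rcases Nat.eq_zero_or_pos (K - F.length) with h0 | h0
      · simp [h0]
      · obtain ⟨k, hk⟩ := Nat.exists_eq_succ_of_ne_zero (Nat.pos_iff_ne_zero.1 h0)
        simp [hk, List.replicate_succ])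
    (by
      intro p hp
      rw [List.mem_append, List.mem_cons] at hp
      rcases hp with hp | rfl | hp
      · rw [List.eq_of_mem_replicate hp]
        simp
      · simp only
        omega
      · exact (hF p hp).2)
    (by
      intro p hp x hx
      rw [List.mem_append, List.mem_cons] at hp
      rcases hp with hp | rfl | hp
      · rw [List.eq_of_mem_replicate hp] at hx
        exact absurd hx List.not_mem_nil
      · exact hm x hx
      · exact hmF p hp x hx)
  exact ⟨root, ls, a1, a2, a3, by rw [a4, htot'], a5⟩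

end Pool.Agent.CFT
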