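import Pool.Agent.CFT.Stmts

/-!
# AVG: from many points to one point
-/

set_option autoImplicit false

namespace Pool.Agent.CFT

open Finset Pool.Agent.Lib_helper20.SRO
open Pool.Agent.URG (unc pigeon ext_unc)

theorem t_AVG (hM : Stmt_MID2) (hF : Stmt_FIX) : Stmt_AVG := by
  classical
  obtain ⟨c1, hc1, n0, hcore⟩ := hM
  set c : ℝ := min c1 1 with hc
  have hc0 : 0 < c := lt_min hc1 one_pos
  have hcc1 : c ≤ c1 := min_le_left _ _
  refine ⟨c, hc0, min_le_right _ _, n0, ?_⟩
  intro n hn L m r s W Q _ _ G w g hL hrig hrf hm1 hm hdense hr hs hblk hacc hfew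
  have hn0 : (0 : ℝ) ≤ n := Nat.cast_nonneg n
  have hLR : (0 : ℝ) < L := by exact_mod_cast hL
  have hcn : c * n ≤ c1 * n := mul_le_mul_of_nonneg_right hcc1 hn0
  have hpw : (2 : ℝ) ^ (c * n) ≤ 2 ^ (c1 * n) := Real.rpow_le_rpow_of_exponent_le one_le_two hcn
  set A := univ.filter fun x : Fin n → Bool => g x = true with hA
  have hAne : A.Nonempty := by
    rw [← card_pos]
    rcases Nat.eq_zero_or_pos A.card with h | h
    · rw [h] at hdense
      simp only [Nat.cast_zero, mul_zero] at hdense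
      have : (0 : ℝ) < 2 ^ n * L := by positivity
      linarith
    · exact h
  let R : (Fin L → Fin n → Bool) → Fin L → ℕ → Prop := fun y i k =>
    ∃ l, Der G G.source l ∧ Agrees (Sum.elim w (unc y)) l ∧
      (univ.filter fun j : Fin n => 2 ≤ URG.cnt l (Sum.inr (i, j))).card ≤ k
  have hR : ∀ y ∈ Fintype.piFinset (fun _ : Fin L => A), ∃ i, R y i (r / L) := by
    intro y hy
    have h1 : G.Accepts (Sum.elim w (unc y)) := by
      rw [hacc]
      intro l
      exact (mem_filter.1 (Fintype.mem_piFinset.1 hy l)).2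
    obtain ⟨l, hl, hbl, hcl⟩ := hfew _ h1
    by_contra hcon
    push Not at hcon
    have h2 : ∀ i : Fin L, r / L + 1 ≤
        (univ.filter fun j : Fin n => 2 ≤ URG.cnt l (Sum.inr (i, j))).card := by
      intro i
      by_contra h3
      exact hcon i ⟨l, hl, hbl, by omega⟩
    have h3 : (univ.filter fun p : Fin L × Fin n =>
        2 ≤ URG.cnt l (Sum.inr p)).card = ∑ i : Fin L,
        (univ.filter fun j : Fin n => 2 ≤ URG.cnt l (Sum.inr (i, j))).card := by
      rw [card_filter, Fintype.sum_prod_type]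
      refine sum_congr rfl fun i _ => ?_
      rw [card_filter]
    have h4 : ∑ _i : Fin L, (r / L + 1) ≤ ∑ i : Fin L,
        (univ.filter fun j : Fin n => 2 ≤ URG.cnt l (Sum.inr (i, j))).card :=
      sum_le_sum fun i _ => h2 i
    rw [sum_const, smul_eq_mul, card_univ, Fintype.card_fin, ← h3] at h4
    have h5 : r < L * (r / L + 1) := Nat.lt_mul_div_succ r hL
    omega
  obtain ⟨i, y, hy, B0, hB0A, hB0, hcard⟩ := pigeon hL A hAne R hR
  have hι : Function.Injective (fun j : Fin n => (Sum.inr (i, j) : W ⊕ (Fin L × Fin n))) := by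
    intro j j' h
    simpa using h
  obtain ⟨f1, f2, f3, f4, f5⟩ := hF (W ⊕ (Fin L × Fin n)) Q n G
    (fun j : Fin n => (Sum.inr (i, j) : W ⊕ (Fin L × Fin n))) (Sum.elim w (unc y)) hι
  refine hpw.trans (hcore n hn Q (fixF G (fun j : Fin n => (Sum.inr (i, j) :
    W ⊕ (Fin L × Fin n))) (Sum.elim w (unc y))) g m (r / L) s B0 ?_ (hs.trans hcn) (f2 s hblk) ?_
    hrig ?_ hm1 (hm.trans hpw) hrf ?_)
  · have h1 : ((r / L : ℕ) : ℝ) ≤ (r : ℝ) / L := Nat.cast_div_le
    refine h1.trans ?_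
    rw [div_le_iff₀ hLR]
    calc (r : ℝ) ≤ c * (n * L) := hr
      _ = c * n * L := by ring
      _ ≤ c1 * n * L := mul_le_mul_of_nonneg_right hcn hLR.le
  · intro b hb
    rw [f1, ext_unc, hacc] at hb
    have := hb i
    simpa [unc] using this
  · intro b hb
    obtain ⟨l, hl, hbl, hcl⟩ := hB0 b hb
    refine ⟨restr (fun j : Fin n => (Sum.inr (i, j) : W ⊕ (Fin L × Fin n))) l,
      f3 _ l hl (by
        intro p hp hx
        rw [← hbl p hp, ← ext_unc, ext_of_not _ _ hx]), f4 b l (by rw [ext_unc]; exact hbl), ?_⟩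
    simp only [f5]
    exact hcl
  · have h1 : (A.card : ℝ) ≤ L * B0.card := by exact_mod_cast hcard
    have h2 : (0 : ℝ) ≤ 2 ^ (c * n) := Real.rpow_nonneg (by norm_num) _
    have h3 : (2 : ℝ) ^ n * L ≤ (2 ^ (c * n) * B0.card) * L := by
      refine hdense.trans ((mul_le_mul_of_nonneg_left h1 h2).trans (le_of_eq ?_))
      ring
    refine (le_of_mul_le_mul_right h3 hLR).trans ?_
    exact mul_le_mul_of_nonneg_right hpw (Nat.cast_nonneg _)

end Pool.Agent.CFT
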