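import Pool.Agent.CFT.Stmts

/-!
# Fork programs, CNT: from read-once trees to a system
-/

set_option autoImplicit false

namespace Pool.Agent.CFT

open Finset Pool.Agent.Lib_helper20.SRO

namespace CNT

variable {n : ℕ} {N : Type}

/-- The lists of tests of the group `j`. -/
def FF {K : ℕ} (G : FP (Fin n) N) (root : Fin (K + 1) → N) (γ : Fin (K + 1) → Fin 5) (j : Fin 5)
    (s' : List (Fin n × Bool)) : Prop :=
  ∃ ls : Fin (K + 1) → List (Fin n × Bool), ∀ i, γ i = j →
    Ctx G (fun u => ∃ j', i < j' ∧ root j' = u) (root i) (ls i) ∧ ∀ p ∈ ls i, p ∈ s'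

/-- An input which passes tests of all groups is accepted. -/
lemma acc (hASM : Stmt_ASM) {K : ℕ} (G : FP (Fin n) N) (root : Fin (K + 1) → N)
    (γ : Fin (K + 1) → Fin 5) (h0 : root 0 = G.source) (s : Fin 5 → List (Fin n × Bool))
    (b : Fin n → Bool) (h : ∀ j, FF G root γ j (s j)) (hb : ∀ j, Agrees b (s j)) :
    G.Accepts b := by
  choose ls hls using h
  obtain ⟨l, hl, hp⟩ := hASM (Fin n) N G (K + 1) root (fun i => ls (γ i) i)
    (fun i => (hls (γ i) i rfl).1) 0
  refine ⟨l, h0 ▸ hl, fun p hpl => ?_⟩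
  obtain ⟨i, hi⟩ := hp p hpl
  exact hb (γ i) p ((hls (γ i) i rfl).2 p hi)

/-- The tree of an accepted input tests every variable. -/
lemma len_eq (G : FP (Fin n) N) (f : (Fin n → Bool) → Bool)
    (hacc : ∀ b, G.Accepts b → f b = true) (hR : Rigid f) (b : Fin n → Bool)
    (l : List (Fin n × Bool)) (hl : Der G G.source l) (hb : Agrees b l)
    (hnd : (l.map Prod.fst).Nodup) : l.length = n := by
  have hall : ∀ x, x ∈ l.map Prod.fst := by
    intro x
    by_contra hx
    have h1 : Agrees (flipAt b x) l := by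
      intro p hp
      have hne : p.1 ≠ x := fun h => hx (h ▸ List.mem_map_of_mem hp)
      have h2 := hb p hp
      rw [← h2]
      simp [flipAt, hne]
    have h2 := hacc _ ⟨l, hl, h1⟩
    rw [hR b x (hacc b ⟨l, hl, hb⟩)] at h2
    exact absurd h2 (by decide)
  have h1 : (l.map Prod.fst).toFinset = univ := by
    ext x
    simp only [List.mem_toFinset, mem_univ, iff_true]
    exact hall x
  have h2 := List.toFinset_card_of_nodup hnd
  rw [h1, card_univ, Fintype.card_fin, List.length_map] at h2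
  exact h2.symm

/-- The length of a concatenation. -/
lemma length_cat {α : Type} {K : ℕ} (γ : Fin K → Fin 5) (j : Fin 5) (ls : Fin K → List α) :
    (((List.finRange K).filter fun i => γ i = j).flatMap ls).length =
      ∑ i ∈ univ.filter (fun i => γ i = j), (ls i).length := by
  rw [List.length_flatMap]
  have h1 : ((List.finRange K).filter fun i => γ i = j).Nodup :=
    (List.nodup_finRange K).filter _
  rw [← List.sum_toFinset _ h1]
  apply sum_congr _ fun _ _ => rfl
  ext i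
  simp

/-- The data of an input. -/
lemma data (hCUT : Stmt_CUT) (hGRP : Stmt_GRP) (G : FP (Fin n) N)
    (f : (Fin n → Bool) → Bool) (h s K w' : ℕ) (hG : G.Block s)
    (hacc : ∀ b, G.Accepts b → f b = true) (hR : Rigid f) (hn : n < h * (K + 1))
    (hw : 4 * w' ≤ n) (b : Fin n → Bool)
    (hb : ∃ l, Der G G.source l ∧ Agrees b l ∧ (l.map Prod.fst).Nodup) :
    ∃ t : (Fin (K + 1) → N) × (Fin (K + 1) → Fin 5) × (Fin 5 → Fin (n + 1)),
      t.1 0 = G.source ∧ ∑ j, (t.2.2 j : ℕ) = n ∧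
      (∀ j, j ≠ 4 → (t.2.2 j : ℕ) ≤ w' ∧ w' ≤ (t.2.2 j : ℕ) + (2 * h + s)) ∧
      ∃ s' : Fin 5 → List (Fin n × Bool),
        ∀ j, FF G t.1 t.2.1 j (s' j) ∧ (s' j).length = (t.2.2 j : ℕ) ∧ Agrees b (s' j) := by
  obtain ⟨l, hl, hbl, hnd⟩ := hb
  have hlen := len_eq G f hacc hR b l hl hbl hnd
  obtain ⟨root, ls, h0, hdec, hls, hsum, hmem⟩ := hCUT (Fin n) N G h s K G.source l hG hl
    (by rw [hlen]; exact hn)
  obtain ⟨γ, hγ⟩ := hGRP (K + 1) (2 * h + s) w' (fun i => (ls i).length) hls (by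
    rw [hsum, hlen]
    exact hw)
  have hle : ∀ j, ∑ i ∈ univ.filter (fun i => γ i = j), (ls i).length < n + 1 := by
    intro j
    have h1 : ∑ i ∈ univ.filter (fun i => γ i = j), (ls i).length ≤ ∑ i, (ls i).length :=
      sum_le_sum_of_subset (filter_subset _ _)
    omega
  refine ⟨(root, γ, fun j => ⟨∑ i ∈ univ.filter (fun i => γ i = j), (ls i).length, hle j⟩), h0,
    ?_, hγ, fun j => ((List.finRange (K + 1)).filter fun i => γ i = j).flatMap ls, fun j =>
    ⟨⟨ls, fun i hi => ⟨hdec i, fun p hp => ?_⟩⟩, length_cat γ j ls, fun p hp => ?_⟩⟩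
  · change ∑ j, ∑ i ∈ univ.filter (fun i => γ i = j), (ls i).length = n
    exact (sum_fiberwise univ γ fun i => (ls i).length).trans (hsum.trans hlen)
  · rw [List.mem_flatMap]
    exact ⟨i, by simpa using hi, hp⟩
  · rw [List.mem_flatMap] at hp
    obtain ⟨i, -, hi⟩ := hp
    exact hbl p (hmem i p hi)

end CNT

open CNT in
theorem t_CNT : Stmt_ASM → Stmt_CUT → Stmt_GRP → Stmt_E5 → Stmt_CNT := by
  classical
  intro hASM hCUT hGRP hE5 n N _ G f h s K w' B hG hacc hR hB hn hw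
  rcases B.eq_empty_or_nonempty with rfl | hne
  · refine ⟨fun j => if j = 4 then n - 4 * w' else w', ∅, fun _ _ => 0,
      ⟨fun b hb => absurd hb (notMem_empty b), fun b hb => absurd hb (notMem_empty b)⟩,
      fun b hb => absurd hb (notMem_empty b), ?_, fun j hj => ?_, by simp⟩
    · rw [Fin.sum_univ_five]
      have h4 : ∀ j : Fin 5, j ≠ 4 → (if j = 4 then n - 4 * w' else w') = w' :=
        fun j hj => if_neg hj
      rw [h4 0 (by decide), h4 1 (by decide), h4 2 (by decide), h4 3 (by decide), if_pos rfl]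
      omega
    · simp only [if_neg hj]
      omega
  have hdat : ∀ b, ∃ t : (Fin (K + 1) → N) × (Fin (K + 1) → Fin 5) × (Fin 5 → Fin (n + 1)),
      b ∈ B → (t.1 0 = G.source ∧ ∑ j, (t.2.2 j : ℕ) = n ∧
      (∀ j, j ≠ 4 → (t.2.2 j : ℕ) ≤ w' ∧ w' ≤ (t.2.2 j : ℕ) + (2 * h + s)) ∧
      ∃ s' : Fin 5 → List (Fin n × Bool),
        ∀ j, FF G t.1 t.2.1 j (s' j) ∧ (s' j).length = (t.2.2 j : ℕ) ∧ Agrees b (s' j)) := by
    intro b
    by_cases hb : b ∈ B
    · obtain ⟨t, ht⟩ := data hCUT hGRP G f h s K w' hG hacc hR hn hw b (hB b hb)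
      exact ⟨t, fun _ => ht⟩
    · exact ⟨(fun _ => G.source, fun _ => 0, fun _ => 0), fun h => absurd h hb⟩
  choose φ hφ using hdat
  obtain ⟨t, ht, hmax⟩ := exists_max_image (B.image φ)
    (fun t => (B.filter fun b => φ b = t).card) (hne.image φ)
  obtain ⟨b₀, hb₀, hb₀t⟩ := mem_image.1 ht
  have hprop := hφ b₀ hb₀
  rw [hb₀t] at hprop
  obtain ⟨h1, h2, h3, -⟩ := hprop
  have hcount : B.card ≤ Fintype.card
      ((Fin (K + 1) → N) × (Fin (K + 1) → Fin 5) × (Fin 5 → Fin (n + 1))) *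
      (B.filter fun b => φ b = t).card := by
    calc B.card = ∑ t' ∈ B.image φ, (B.filter fun b => φ b = t').card :=
          card_eq_sum_card_image φ B
      _ ≤ (B.image φ).card • (B.filter fun b => φ b = t).card :=
          sum_le_card_nsmul _ _ _ hmax
      _ ≤ _ := by
          rw [smul_eq_mul]
          exact Nat.mul_le_mul_right _ (card_le_univ _)
  let P : Finset (Fin n → Bool) := univ.filter fun b => ∃ s' : Fin 5 → List (Fin n × Bool),
    ∀ j, FF G t.1 t.2.1 j (s' j) ∧ (s' j).length = (t.2.2 j : ℕ) ∧ Agrees b (s' j)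
  have hPf : ∀ (s' : Fin 5 → List (Fin n × Bool)) (b : Fin n → Bool),
      (∀ j, FF G t.1 t.2.1 j (s' j) ∧ (s' j).length = (t.2.2 j : ℕ) ∧ Agrees b (s' j)) →
      f b = true := fun s' b hs =>
    hacc b (acc hASM G t.1 t.2.1 h1 s' b (fun j => (hs j).1) fun j => (hs j).2.2)
  obtain ⟨L, hL⟩ := hE5 n f (fun j => (t.2.2 j : ℕ)) (fun j => FF G t.1 t.2.1 j) P hR h2 hPf
    (fun b => by simp [P])
  refine ⟨fun j => (t.2.2 j : ℕ), P, L, hL, fun b hb => ?_, h2, h3, ?_⟩
  · obtain ⟨s', hs⟩ := (mem_filter.1 hb).2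
    exact hPf s' b hs
  · have hsub : (B.filter fun b => φ b = t) ⊆ P := by
      intro b hb
      obtain ⟨hbB, hbt⟩ := mem_filter.1 hb
      have h4 := (hφ b hbB).2.2.2
      rw [hbt] at h4
      exact mem_filter.2 ⟨mem_univ _, h4⟩
    refine hcount.trans ?_
    have h5 : Fintype.card ((Fin (K + 1) → N) × (Fin (K + 1) → Fin 5) × (Fin 5 → Fin (n + 1))) =
        (5 * Fintype.card N) ^ (K + 1) * (n + 1) ^ 5 := by
      simp only [Fintype.card_prod, Fintype.card_fun, Fintype.card_fin]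
      rw [mul_pow]
      ring
    rw [h5]
    exact Nat.mul_le_mul_left _ (card_le_card hsub)

end Pool.Agent.CFT
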