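import Pool.Agent.CFT.Stmts
import Pool.Agent.Lib_helper20.SRO.E2

/-!
# Module E5 of the fork program project: the mixing property of a product family

Adapted from the modules E (Lib_helper45/SRO/E.lean) and E2 (Lib_helper20/SRO/E2.lean): the
certificates are five lists of tests, the list `j` from a family `F j`.
-/

set_option autoImplicit false

namespace Pool.Agent.CFT.E5

open Finset Pool.Agent.Lib_helper20.SRO Pool.Agent.Lib_helper45.SRO

/-- The lists `s j` are in the families `F j`, of lengths `w j`, and `b` passes all tests. -/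
def Good5 {n : ℕ} (F : Fin 5 → List (Fin n × Bool) → Prop) (w : Fin 5 → ℕ) (b : Fin n → Bool)
    (s : Fin 5 → List (Fin n × Bool)) : Prop :=
  ∀ j, F j (s j) ∧ (s j).length = w j ∧ Agrees b (s j)

variable {n : ℕ} {f : (Fin n → Bool) → Bool} {w : Fin 5 → ℕ}
  {F : Fin 5 → List (Fin n × Bool) → Prop}

theorem Good5.mix {b b' h : Fin n → Bool} {s s' : Fin 5 → List (Fin n × Bool)}
    (hs : Good5 F w b s) (hs' : Good5 F w b' s')
    (A : Fin 5 → Prop) [DecidablePred A] (h1 : ∀ j, A j → Agrees h (s j))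
    (h2 : ∀ j, ¬ A j → Agrees h (s' j)) : Good5 F w h (fun j => if A j then s j else s' j) := by
  intro j
  by_cases hA : A j
  · simpa [hA] using ⟨(hs j).1, (hs j).2.1, h1 j hA⟩
  · simpa [hA] using ⟨(hs' j).1, (hs' j).2.1, h2 j hA⟩

theorem Good5.flip {b : Fin n → Bool} {s : Fin 5 → List (Fin n × Bool)} (hs : Good5 F w b s)
    {x : Fin n} (hx : x ∉ vars (tot s)) : Good5 F w (flipAt b x) s := by
  intro j
  refine ⟨(hs j).1, (hs j).2.1, agrees_flip (hs j).2.2 ?_⟩
  intro hxj
  obtain ⟨p, hp, hpx⟩ := List.mem_map.1 hxj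
  exact hx (List.mem_map.2 ⟨p, mem_tot.2 ⟨j, hp⟩, hpx⟩)

theorem spec5 (hrig : Rigid f) (hw : ∑ j, w j = n)
    (hsound : ∀ (s : Fin 5 → List (Fin n × Bool)) (b : Fin n → Bool), Good5 F w b s → f b = true)
    {b : Fin n → Bool} {s : Fin 5 → List (Fin n × Bool)}
    (hs : Good5 F w b s) : (∀ j, (vars (s j)).Nodup) ∧
      (∀ i j, ∀ x, x ∈ vars (s i) → x ∈ vars (s j) → i = j) ∧ ∀ x, ∃ j, x ∈ vars (s j) := by
  have hall : ∀ x, x ∈ vars (tot s) := by
    intro x
    by_contra hx
    have h1 : f b = true := hsound s b hs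
    have h2 : f (flipAt b x) = true := hsound s _ (hs.flip hx)
    rw [hrig b x h1] at h2
    exact Bool.false_ne_true h2
  have hlen : (vars (tot s)).length = n := by
    rw [vars, List.length_map, tot_length]
    exact (Finset.sum_congr rfl (fun j _ => (hs j).2.1)).trans hw
  have h1 := nodup_tot (nodup_of_len hlen hall)
  refine ⟨h1.1, h1.2, fun x => ?_⟩
  have h2 := hall x
  obtain ⟨p, hp, hpx⟩ := List.mem_map.1 h2
  obtain ⟨j, hj⟩ := mem_tot.1 hp
  exact ⟨j, List.mem_map.2 ⟨p, hj, hpx⟩⟩

theorem unique5 (hrig : Rigid f) (hw : ∑ j, w j = n)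
    (hsound : ∀ (s : Fin 5 → List (Fin n × Bool)) (b : Fin n → Bool), Good5 F w b s → f b = true)
    {b : Fin n → Bool} {s s' : Fin 5 → List (Fin n × Bool)}
    (hs : Good5 F w b s) (hs' : Good5 F w b s') {i j : Fin 5} {x : Fin n}
    (hi : x ∈ vars (s i)) (hj : x ∈ vars (s' j)) : i = j := by
  by_contra hne
  have hg := Good5.mix hs hs' (fun k => k = i) (h := b) (fun k _ => (hs k).2.2)
    (fun k _ => (hs' k).2.2)
  refine hne ((spec5 hrig hw hsound hg).2.1 i j x ?_ ?_)
  · simpa using hi
  · simpa [Ne.symm hne] using hj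

open Classical in
/-- The part of the certificate in which `b` reads `x`. -/
noncomputable def lab5 (F : Fin 5 → List (Fin n × Bool) → Prop) (w : Fin 5 → ℕ)
    (b : Fin n → Bool) (x : Fin n) : Fin 5 :=
  if h : ∃ j, ∃ s, Good5 F w b s ∧ x ∈ vars (s j) then h.choose else 0

theorem lab_eq5 (hrig : Rigid f) (hw : ∑ j, w j = n)
    (hsound : ∀ (s : Fin 5 → List (Fin n × Bool)) (b : Fin n → Bool), Good5 F w b s → f b = true)
    {b : Fin n → Bool} {s : Fin 5 → List (Fin n × Bool)}
    (hs : Good5 F w b s) (x : Fin n) (j : Fin 5) : lab5 F w b x = j ↔ x ∈ vars (s j) := by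
  have key : ∀ j, x ∈ vars (s j) → lab5 F w b x = j := by
    intro j hj
    have hex : ∃ j, ∃ s, Good5 F w b s ∧ x ∈ vars (s j) := ⟨j, s, hs, hj⟩
    rw [lab5, dif_pos hex]
    obtain ⟨s', hs', hx'⟩ := hex.choose_spec
    exact unique5 hrig hw hsound hs' hs hx' hj
  constructor
  · intro h
    obtain ⟨k, hk⟩ := (spec5 hrig hw hsound hs).2.2 x
    rw [← h, key k hk]
    exact hk
  · exact key j

end Pool.Agent.CFT.E5

namespace Pool.Agent.CFT

open Finset Pool.Agent.Lib_helper20.SRO Pool.Agent.Lib_helper45.SRO E5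

/-- E5: the mixing property of a product family. -/
theorem t_E5 : Stmt_E5 := by
  classical
  intro n f w F P hrig hw hsound hP
  have hsound' : ∀ (s : Fin 5 → List (Fin n × Bool)) (b : Fin n → Bool),
      Good5 F w b s → f b = true := hsound
  refine ⟨lab5 F w, ⟨?_, ?_⟩⟩
  · intro b hb j
    obtain ⟨s, hs⟩ := (hP b).1 hb
    have hs' : Good5 F w b s := hs
    have h1 : univ.filter (fun x => lab5 F w b x = j) = (vars (s j)).toFinset := by
      ext x
      rw [mem_filter, List.mem_toFinset, lab_eq5 hrig hw hsound' hs']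
      simp
    rw [h1, List.toFinset_card_of_nodup ((spec5 hrig hw hsound' hs').1 j), List.length_map,
      (hs j).2.1]
  · intro b hb b' hb' A hA
    obtain ⟨s, hs0⟩ := (hP b).1 hb
    obtain ⟨s', hs0'⟩ := (hP b').1 hb'
    have hs : Good5 F w b s := hs0
    have hs' : Good5 F w b' s' := hs0'
    have L1 := lab_eq5 hrig hw hsound' hs
    have L2 := lab_eq5 hrig hw hsound' hs'
    set h : Fin n → Bool := fun x => if lab5 F w b x ∈ A then b x else b' x with hh
    have hg : Good5 F w h (fun j => if j ∈ A then s j else s' j) := by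
      refine Good5.mix hs hs' (fun j => j ∈ A) ?_ ?_
      · intro j hj p hp
        have h1 : lab5 F w b p.1 = j := (L1 p.1 j).2 (List.mem_map_of_mem hp)
        rw [hh]
        simp only
        rw [h1, if_pos hj]
        exact (hs j).2.2 p hp
      · intro j hj p hp
        have h1 : lab5 F w b' p.1 = j := (L2 p.1 j).2 (List.mem_map_of_mem hp)
        have h2 : b' p.1 = p.2 := (hs' j).2.2 p hp
        rw [hh]
        simp only
        by_cases h3 : lab5 F w b p.1 ∈ A
        · rw [if_pos h3, hA p.1 h3 (by rw [h1]; exact hj)]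
          exact h2
        · rw [if_neg h3]
          exact h2
    have L3 := lab_eq5 hrig hw hsound' hg
    have sp := spec5 hrig hw hsound' hg
    have iff1 : ∀ x, lab5 F w b x ∈ A ↔ lab5 F w b' x ∈ A := by
      intro x
      constructor
      · intro h1
        by_contra h2
        have h3 : x ∈ vars (s (lab5 F w b x)) := (L1 x _).1 rfl
        have h4 : x ∈ vars (s' (lab5 F w b' x)) := (L2 x _).1 rfl
        have h5 := sp.2.1 (lab5 F w b x) (lab5 F w b' x) x (by simpa [h1] using h3)
          (by simpa [h2] using h4)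
        rw [← h5] at h2
        exact h2 h1
      · intro h1
        by_contra h2
        obtain ⟨k, hk⟩ := sp.2.2 x
        by_cases hkA : k ∈ A
        · have h3 : x ∈ vars (s k) := by simpa [hkA] using hk
          rw [(L1 x k).2 h3] at h2
          exact h2 hkA
        · have h3 : x ∈ vars (s' k) := by simpa [hkA] using hk
          rw [(L2 x k).2 h3] at h1
          exact hkA h1
    refine ⟨iff1, ?_, ?_⟩
    · exact (hP _).2 ⟨_, hg⟩
    · intro x
      by_cases h1 : lab5 F w b x ∈ A
      · rw [if_pos h1, L3]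
        have h3 : x ∈ vars (s (lab5 F w b x)) := (L1 x _).1 rfl
        simpa [h1] using h3
      · rw [if_neg h1, L3]
        have h2 : lab5 F w b' x ∉ A := fun h => h1 ((iff1 x).2 h)
        have h3 : x ∈ vars (s' (lab5 F w b' x)) := (L2 x _).1 rfl
        simpa [h2] using h3

end Pool.Agent.CFT
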