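import Pool.Agent.CFT.Stmts

/-!
# Fork programs: fixing variables (module FIX)
-/

set_option autoImplicit false

namespace Pool.Agent.CFT

open Finset Pool.Agent.Lib_helper20.SRO

namespace FIX

variable {V N : Type} {k : ℕ}

theorem restr_append (ι : Fin k → V) (l₁ l₂ : List (V × Bool)) :
    restr ι (l₁ ++ l₂) = restr ι l₁ ++ restr ι l₂ := by
  unfold restr
  exact List.filterMap_append

theorem restr_length_le (ι : Fin k → V) (l : List (V × Bool)) :
    (restr ι l).length ≤ l.length := by
  unfold restr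
  exact List.length_filterMap_le _ _

theorem mem_restr {ι : Fin k → V} {l : List (V × Bool)} {q : Fin k × Bool}
    (h : q ∈ restr ι l) : (ι q.1, q.2) ∈ l := by
  unfold restr at h
  rw [List.mem_filterMap] at h
  obtain ⟨p, hp, hq⟩ := h
  split_ifs at hq with hx
  have hq' : (hx.choose, p.2) = q := Option.some.inj hq
  rw [← hq']
  have h1 : (ι hx.choose, p.2) = p := Prod.ext hx.choose_spec rfl
  rw [h1]
  exact hp

theorem mem_restr_of {ι : Fin k → V} (hι : Function.Injective ι) {l : List (V × Bool)}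
    {x : Fin k} {c : Bool} (h : (ι x, c) ∈ l) : (x, c) ∈ restr ι l := by
  unfold restr
  rw [List.mem_filterMap]
  have hx : ∃ x', ι x' = (ι x, c).1 := ⟨x, rfl⟩
  refine ⟨(ι x, c), h, ?_⟩
  rw [dif_pos hx]
  exact congrArg (fun z => some (z, c)) (hι hx.choose_spec)

theorem agrees_restr {ι : Fin k → V} (hι : Function.Injective ι) {a : V → Bool}
    {b : Fin k → Bool} {l : List (V × Bool)} (h : Agrees (ext ι a b) l) :
    Agrees b (restr ι l) := by
  intro q hq
  have h1 := h _ (mem_restr hq)
  simp only [ext_apply hι] at h1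
  exact h1

theorem agrees_ext {ι : Fin k → V} (hι : Function.Injective ι) {a : V → Bool}
    {b : Fin k → Bool} {l : List (V × Bool)}
    (hl : ∀ p ∈ l, (∀ x, ι x ≠ p.1) → p.2 = a p.1) (h : Agrees b (restr ι l)) :
    Agrees (ext ι a b) l := by
  rintro ⟨y, c⟩ hp
  by_cases hy : ∃ x, ι x = y
  · obtain ⟨x, rfl⟩ := hy
    have h1 := h _ (mem_restr_of hι hp)
    simp only [ext_apply hι]
    exact h1
  · have hy' : ∀ x, ι x ≠ y := fun x hx => hy ⟨x, hx⟩
    have h2 := hl _ hp hy'
    simp only at h2 ⊢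
    rw [ext_of_not a b hy', h2]

theorem der_lift {G : FP V N} {ι : Fin k → V} (hι : Function.Injective ι) {a : V → Bool}
    {v : N} {l' : List (Fin k × Bool)} (h : Der (fixF G ι a) v l') :
    ∃ l, Der G v l ∧ ∀ b, Agrees b l' → Agrees (ext ι a b) l := by
  induction h with
  | fin hf => exact ⟨[], Der.fin hf, fun _ _ p hp => by simp at hp⟩
  | edge he _ ih =>
    obtain ⟨t, het, hta, rfl⟩ := he
    obtain ⟨l, hl, hp⟩ := ih
    refine ⟨t ++ l, Der.edge het hl, fun b hb p hp' => ?_⟩
    rcases List.mem_append.1 hp' with h' | h'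
    · exact agrees_ext hι hta (fun q hq => hb q (List.mem_append_left _ hq)) p h'
    · exact hp b (fun q hq => hb q (List.mem_append_right _ hq)) p h'
  | fork hf _ _ ih₁ ih₂ =>
    obtain ⟨l₁, hl₁, hp₁⟩ := ih₁
    obtain ⟨l₂, hl₂, hp₂⟩ := ih₂
    refine ⟨l₁ ++ l₂, Der.fork hf hl₁ hl₂, fun b hb p hp' => ?_⟩
    rcases List.mem_append.1 hp' with h' | h'
    · exact hp₁ b (fun q hq => hb q (List.mem_append_left _ hq)) p h'
    · exact hp₂ b (fun q hq => hb q (List.mem_append_right _ hq)) p h'

theorem der_fix {G : FP V N} {ι : Fin k → V} {a : V → Bool}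
    {v : N} {l : List (V × Bool)} (h : Der G v l) :
    (∀ p ∈ l, (∀ x, ι x ≠ p.1) → p.2 = a p.1) → Der (fixF G ι a) v (restr ι l) := by
  induction h with
  | fin hf => exact fun _ => Der.fin hf
  | edge he _ ih =>
    intro hl
    rw [restr_append]
    exact Der.edge ⟨_, he, fun p hp => hl p (List.mem_append_left _ hp), rfl⟩
      (ih fun p hp => hl p (List.mem_append_right _ hp))
  | fork hf _ _ ih₁ ih₂ =>
    intro hl
    rw [restr_append]
    exact Der.fork hf (ih₁ fun p hp => hl p (List.mem_append_left _ hp))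
      (ih₂ fun p hp => hl p (List.mem_append_right _ hp))

theorem count_restr [DecidableEq V] {ι : Fin k → V} (hι : Function.Injective ι)
    (l : List (V × Bool)) (x : Fin k) :
    ((restr ι l).map Prod.fst).count x = (l.map Prod.fst).count (ι x) := by
  induction l with
  | nil => rfl
  | cons p l ih =>
    obtain ⟨y, c⟩ := p
    rw [List.map_cons, List.count_cons, ← ih]
    by_cases hy : ∃ z, ι z = y
    · obtain ⟨z, rfl⟩ := hy
      have h1 : restr ι ((ι z, c) :: l) = (z, c) :: restr ι l := by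
        unfold restr
        have hx : ∃ x', ι x' = (ι z, c).1 := ⟨z, rfl⟩
        refine List.filterMap_cons_some ?_
        rw [dif_pos hx]
        exact congrArg (fun w => some (w, c)) (hι hx.choose_spec)
      rw [h1, List.map_cons, List.count_cons]
      simp only [beq_iff_eq, hι.eq_iff]
    · have h1 : restr ι ((y, c) :: l) = restr ι l := by
        unfold restr
        refine List.filterMap_cons_none ?_
        exact dif_neg hy
      have h2 : ¬ (y = ι x) := fun h => hy ⟨x, h.symm⟩
      rw [h1]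
      simp [h2]

end FIX

/-- module FIX -/
theorem t_FIX : Stmt_FIX := by
  intro V N _ k G ι a hι
  refine ⟨fun b => ⟨?_, ?_⟩, ?_, ?_, ?_, FIX.count_restr hι⟩
  · rintro ⟨l', hl', hb⟩
    obtain ⟨l, hl, hp⟩ := FIX.der_lift hι hl'
    exact ⟨l, hl, hp b hb⟩
  · rintro ⟨l, hl, hb⟩
    refine ⟨restr ι l, FIX.der_fix hl ?_, FIX.agrees_restr hι hb⟩
    intro p hp hx
    rw [← hb p hp, ext_of_not a b hx]
  · rintro s hs v t' u ⟨t, het, _, rfl⟩
    exact (FIX.restr_length_le ι t).trans (hs v t u het)
  · exact fun v l h hl => FIX.der_fix h hl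
  · exact fun b l h => FIX.agrees_restr hι h

end Pool.Agent.CFT
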