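import Pool.Agent.CFT.Stmts

/-!
# CFT, module GRP: four groups of about the same weight (helper38)
-/

set_option autoImplicit false

namespace Pool.Agent.CFT

open Finset

namespace GRP

lemma sub {ι : Type} [DecidableEq ι] (u : ι → ℕ) (a w : ℕ) (hu : ∀ i, u i ≤ a) (S : Finset ι)
    (hS : w ≤ ∑ i ∈ S, u i) :
    ∃ T ⊆ S, ∑ i ∈ T, u i ≤ w ∧ w ≤ ∑ i ∈ T, u i + a := by
  induction S using Finset.induction_on with
  | empty =>
    refine ⟨∅, Subset.refl _, ?_, ?_⟩
    · simp
    · simp only [sum_empty] at hS ⊢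
      omega
  | insert x S hx ih =>
    by_cases h : w ≤ ∑ i ∈ S, u i
    · obtain ⟨T, hT, h1, h2⟩ := ih h
      exact ⟨T, hT.trans (subset_insert x S), h1, h2⟩
    · rw [sum_insert hx] at hS
      refine ⟨S, subset_insert x S, by omega, ?_⟩
      have := hu x
      omega

end GRP


theorem t_GRP : Stmt_GRP := by
  intro K a w u hu hsum
  obtain ⟨T0, h0, h0a, h0b⟩ := GRP.sub u a w hu univ (by omega)
  have e0 := sum_sdiff (f := u) h0
  obtain ⟨T1, h1, h1a, h1b⟩ := GRP.sub u a w hu (univ \ T0) (by omega)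
  have e1 := sum_sdiff (f := u) h1
  obtain ⟨T2, h2, h2a, h2b⟩ := GRP.sub u a w hu ((univ \ T0) \ T1) (by omega)
  have e2 := sum_sdiff (f := u) h2
  obtain ⟨T3, h3, h3a, h3b⟩ := GRP.sub u a w hu (((univ \ T0) \ T1) \ T2) (by omega)
  have m1 : ∀ i ∈ T1, i ∉ T0 := fun i hi => by
    have := h1 hi
    simp only [mem_sdiff, mem_univ, true_and] at this
    exact this
  have m2 : ∀ i ∈ T2, i ∉ T0 ∧ i ∉ T1 := fun i hi => by
    have := h2 hi
    simp only [mem_sdiff, mem_univ, true_and] at this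
    exact this
  have m3 : ∀ i ∈ T3, (i ∉ T0 ∧ i ∉ T1) ∧ i ∉ T2 := fun i hi => by
    have := h3 hi
    simp only [mem_sdiff, mem_univ, true_and] at this
    exact this
  let γ : Fin K → Fin 5 := fun i =>
    if i ∈ T0 then 0 else if i ∈ T1 then 1 else if i ∈ T2 then 2 else if i ∈ T3 then 3 else 4
  have g0 : univ.filter (fun i => γ i = 0) = T0 := by
    ext i
    simp only [mem_filter, mem_univ, true_and, γ]
    split_ifs with a1 a2 a3 a4 <;> simp_all
  have g1 : univ.filter (fun i => γ i = 1) = T1 := by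
    ext i
    simp only [mem_filter, mem_univ, true_and, γ]
    split_ifs with a1 a2 a3 a4 <;> simp_all
    intro h
    exact m1 i h a1
  have g2 : univ.filter (fun i => γ i = 2) = T2 := by
    ext i
    simp only [mem_filter, mem_univ, true_and, γ]
    split_ifs with a1 a2 a3 a4
    · simp only [Fin.reduceEq, false_iff]
      exact fun h => (m2 i h).1 a1
    · simp only [Fin.reduceEq, false_iff]
      exact fun h => (m2 i h).2 a2
    · simpa using a3
    · simp_all
    · simp_all
  have g3 : univ.filter (fun i => γ i = 3) = T3 := by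
    ext i
    simp only [mem_filter, mem_univ, true_and, γ]
    split_ifs with a1 a2 a3 a4
    · simp only [Fin.reduceEq, false_iff]
      exact fun h => (m3 i h).1.1 a1
    · simp only [Fin.reduceEq, false_iff]
      exact fun h => (m3 i h).1.2 a2
    · simp only [Fin.reduceEq, false_iff]
      exact fun h => (m3 i h).2 a3
    · simpa using a4
    · simp_all
  refine ⟨γ, fun j hj => ?_⟩
  fin_cases j
  · exact ⟨(congrArg (fun s => ∑ i ∈ s, u i) g0).trans_le h0a,
      h0b.trans_eq (congrArg (fun s => ∑ i ∈ s, u i + a) g0.symm)⟩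
  · exact ⟨(congrArg (fun s => ∑ i ∈ s, u i) g1).trans_le h1a,
      h1b.trans_eq (congrArg (fun s => ∑ i ∈ s, u i + a) g1.symm)⟩
  · exact ⟨(congrArg (fun s => ∑ i ∈ s, u i) g2).trans_le h2a,
      h2b.trans_eq (congrArg (fun s => ∑ i ∈ s, u i + a) g2.symm)⟩
  · exact ⟨(congrArg (fun s => ∑ i ∈ s, u i) g3).trans_le h3a,
      h3b.trans_eq (congrArg (fun s => ∑ i ∈ s, u i + a) g3.symm)⟩
  · exact absurd rfl hj

end Pool.Agent.CFT
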