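import Pool.Agent.CFT.Stmts
import Pool.Agent.URG.Low2

/-!
# The lower bound for `Good` and fork programs, in terms of `n`
-/

set_option autoImplicit false

namespace Pool.Agent.CFT

open Finset Pool.Agent.Lib_helper20.SRO Pool.Agent.URG
open Pool.Agent.HPM.Fn (Coord)

/-- each accepted input has an accepting tree on which at most `r` bits of points are tested more
than once, or each accepted input has an accepting tree with at most `r + n L` tests -/
def NearlyP {L n : ℕ} {W Q : Type} [DecidableEq W] (G : FP (W ⊕ (Fin L × Fin n)) Q) (r : ℕ) :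
    Prop :=
  (∀ v, G.Accepts v → ∃ l, Der G G.source l ∧ Agrees v l ∧
    (univ.filter fun p : Fin L × Fin n => 2 ≤ cnt l (Sum.inr p)).card ≤ r) ∨
  (∀ v, G.Accepts v → ∃ l, Der G G.source l ∧ Agrees v l ∧ l.length ≤ r + n * L)

/-- A short accepting tree tests few bits of the points more than once. -/
lemma short_few {L n : ℕ} {W Q : Type} [DecidableEq W] (G : FP (W ⊕ (Fin L × Fin n)) Q)
    (w : W → Bool) (g : (Fin n → Bool) → Bool) (hrig : Rigid g)
    (hacc : ∀ b : Fin L × Fin n → Bool, G.Accepts (Sum.elim w b) →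
      ∀ l, g (fun j => b (l, j)) = true) (b : Fin L × Fin n → Bool)
    (l : List ((W ⊕ (Fin L × Fin n)) × Bool)) (hl : Der G G.source l)
    (hb : Agrees (Sum.elim w b) l) :
    (univ.filter fun p : Fin L × Fin n => 2 ≤ cnt l (Sum.inr p)).card + L * n ≤ l.length := by
  have h1 : ∀ p : Fin L × Fin n, 1 ≤ cnt l (Sum.inr p) := by
    intro p
    by_contra hcon
    have h0 : cnt l (Sum.inr p) = 0 := by omega
    have hnot := cnt_eq_zero.1 h0
    have h2 : Agrees (Sum.elim w (flipAt b p)) l := by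
      have h3 := Pool.Agent.Lib_helper45.SRO.agrees_flip hb hnot
      have h4 : flipAt (Sum.elim w b) (Sum.inr p) = Sum.elim w (flipAt b p) := by
        funext v
        rcases v with v | v
        · simp [flipAt]
        · by_cases hv : v = p
          · subst hv
            simp [flipAt]
          · simp [flipAt, hv]
      rwa [h4] at h3
    have h5 := hacc b ⟨l, hl, hb⟩ p.1
    have h6 := hacc _ ⟨l, hl, h2⟩ p.1
    have h7 : (fun j => flipAt b p (p.1, j)) = flipAt (fun j => b (p.1, j)) p.2 := by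
      funext j
      by_cases hj : j = p.2
      · subst hj
        simp [flipAt]
      · have : ((p.1, j) : Fin L × Fin n) ≠ p := fun h => hj (by rw [← h])
        simp [flipAt, hj, this]
    rw [h7, hrig _ _ h5] at h6
    exact Bool.false_ne_true h6
  have h2 : ∑ p : Fin L × Fin n, (1 + if 2 ≤ cnt l (Sum.inr p) then 1 else 0) ≤
      ∑ p : Fin L × Fin n, cnt l (Sum.inr p) := by
    refine sum_le_sum fun p _ => ?_
    have := h1 p
    split_ifs with h
    · exact h
    · omega
  rw [sum_add_distrib, ← card_filter, sum_const, card_univ, Fintype.card_prod, Fintype.card_fin,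
    Fintype.card_fin, smul_eq_mul, mul_one] at h2
  have h3 : ∑ p : Fin L × Fin n, cnt l (Sum.inr p) ≤ l.length := sum_cnt_le Sum.inr_injective l
  have h4 : L * n = n * L := mul_comm _ _
  omega

/-- The lower bound if the tests are suitable: `G` accepts, for these tests, the points that have the
property. -/
theorem t_lowWP (hAVG : Stmt_AVG) : ∃ c : ℝ, 0 < c ∧ c ≤ 1 ∧ ∃ n0 : ℕ, ∀ n ≥ n0,
    ∀ (e L r s : ℕ) (β : Coord (deg n e)), Num c n e L r → (s : ℝ) ≤ c * n →
    ∃ u : VarX n e → Bool, ∀ (W Q : Type) [Fintype Q] [DecidableEq W]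
      (G : FP (W ⊕ (Fin L × Fin n)) Q) (w : W → Bool), G.Block s →
      (∀ y : Fin L × Fin n → Bool, G.Accepts (Sum.elim w y) ↔ Good β u y) → NearlyP G r →
      (2 : ℝ) ^ (c * n) ≤ Fintype.card Q := by
  obtain ⟨c, hc0, hc1, n0, hlow⟩ := hAVG
  refine ⟨c, hc0, hc1, n0, ?_⟩
  intro n hn0 e L r s β hN hs
  obtain ⟨u, hrect, hdense⟩ := t_good n e β hN.hn hN.he hN.hl
  refine ⟨u, ?_⟩
  intro W Q _ _ G w hblk hacc' hnear
  have hacc : ∀ y : Fin L × Fin n → Bool, G.Accepts (Sum.elim w y) ↔
      ∀ l, one β u (fun j => y (l, j)) = true := by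
    intro y
    rw [hacc']
    unfold Good one
    simp only [Bool.and_eq_true, decide_eq_true_eq]
  have hnn : (0 : ℝ) ≤ n := Nat.cast_nonneg n
  refine hlow n hn0 L (2 ^ e) r s W Q G w (one β u) hN.hL (rigid_one β u) hrect
    Nat.one_le_two_pow (by exact_mod_cast hN.hm) ?_ hN.hr hs hblk hacc ?_
  · have h1 : (2 : ℝ) ^ n ≤ 2 ^ (zs n e * pols n e + 2) *
        (univ.filter fun x : Fin n → Bool => one β u x = true).card := by exact_mod_cast hdense
    have h3 : (2 : ℝ) ^ (zs n e * pols n e + 2) * L ≤ 2 ^ (c * n) := by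
      have e1 : (2 : ℝ) ^ (zs n e * pols n e) ≤ 2 ^ (c * n / 2) := by
        rw [← Real.rpow_natCast]
        exact Real.rpow_le_rpow_of_exponent_le one_le_two hN.hzs
      calc (2 : ℝ) ^ (zs n e * pols n e + 2) * L = 2 ^ (zs n e * pols n e) * (4 * L) := by
            rw [pow_add]
            ring
        _ ≤ 2 ^ (c * n / 2) * 2 ^ (c * n / 2) := by
            apply mul_le_mul e1 hN.h4 (by positivity) (by positivity)
        _ = 2 ^ (c * n) := by
            rw [← Real.rpow_add (by norm_num)]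
            congr 1
            ring
    calc (2 : ℝ) ^ n * L ≤ (2 ^ (zs n e * pols n e + 2) *
          (univ.filter fun x : Fin n → Bool => one β u x = true).card) * L :=
          mul_le_mul_of_nonneg_right h1 (by positivity)
      _ = (2 ^ (zs n e * pols n e + 2) * L) *
          (univ.filter fun x : Fin n → Bool => one β u x = true).card := by ring
      _ ≤ _ := mul_le_mul_of_nonneg_right h3 (by positivity)
  · intro b hb
    rcases hnear with h | h
    · exact h _ hb
    · obtain ⟨l, hl, hbl, hlen⟩ := h _ hb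
      refine ⟨l, hl, hbl, ?_⟩
      have h1 := short_few G w (one β u) (rigid_one β u) (fun b hb => (hacc b).1 hb) b l hl hbl
      have h2 : L * n = n * L := mul_comm _ _
      omega

/-- the core lower bound for a function `f` and fork programs -/
def CoreP {W : Type} [DecidableEq W] (c : ℝ) (n L : ℕ) (f : (W ⊕ (Fin L × Fin n) → Bool) → Bool) :
    Prop :=
  ∀ r s : ℕ, (r : ℝ) ≤ c * (n * L) → (s : ℝ) ≤ c * n → ∀ (Q : Type) [Fintype Q]
    (G : FP (W ⊕ (Fin L × Fin n)) Q), G.Block s → G.Computes f → NearlyP G r →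
    (2 : ℝ) ^ (c * n) ≤ Fintype.card Q

theorem t_coreP (hAVG : Stmt_AVG) : ∃ c : ℝ, 0 < c ∧ c ≤ 1 ∧ ∃ n0 : ℕ, ∀ n ≥ n0,
    ∀ (e L : ℕ) (β : Coord (deg n e)),
    (∀ r : ℕ, (r : ℝ) ≤ c * (n * L) → Num c n e L r) →
    CoreP c n L (goodA (L := L) β) ∧ CoreP c n L (goodF (L := L) β) ∧
      CoreP c n L (fun v : VarG n e L → Bool => !goodF β v) := by
  obtain ⟨c, hc0, hc1, n0, hlow⟩ := t_lowWP hAVG
  refine ⟨c, hc0, hc1, n0, ?_⟩
  intro n hn e L β hN
  refine ⟨fun r s hr hs Q _ G hblk hcomp hnear => ?_, fun r s hr hs Q _ G hblk hcomp hnear => ?_,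
    fun r s hr hs Q _ G hblk hcomp hnear => ?_⟩
  · obtain ⟨u, h⟩ := hlow n hn e L r s β (hN r hr) hs
    refine h _ Q G u hblk (fun y => ?_) hnear
    rw [hcomp]
    exact goodA_iff β _
  · obtain ⟨u, h⟩ := hlow n hn e L r s β (hN r hr) hs
    refine h _ Q G (Sum.elim u fun _ => true) hblk (fun y => ?_) hnear
    rw [hcomp]
    exact goodF_true β _ rfl
  · obtain ⟨u, h⟩ := hlow n hn e L r s β (hN r hr) hs
    refine h _ Q G (Sum.elim u fun _ => false) hblk (fun y => ?_) hnear
    rw [hcomp]
    exact goodF_false β _ rfl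

end Pool.Agent.CFT
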