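import Pool.Agent.CFT.Stmts

/-!
# MID: the lower bound for read-once trees
-/

set_option autoImplicit false

namespace Pool.Agent.CFT

open Finset Pool.Agent.Lib_helper20.SRO

namespace MID

/-- A polynomial factor is swallowed by an exponential one. -/
lemma poly_exp {C : ℝ} (hC : 0 < C) (K : ℕ) : ∃ n0 : ℕ, ∀ n : ℕ, n0 ≤ n →
    (5 : ℝ) ^ (K + 1) * ((n : ℝ) + 1) ^ 5 ≤ 2 ^ (C * n) := by
  have hl2 : 0 < Real.log 2 := Real.log_pos (by norm_num)
  set b : ℝ := C * Real.log 2 with hb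
  have hb0 : 0 < b := by positivity
  have h1 := (isLittleO_pow_exp_pos_mul_atTop (b := b) 5 hb0).bound
    (c := 1 / (5 ^ (K + 1) * Real.exp b)) (by positivity)
  rw [Filter.eventually_atTop] at h1
  obtain ⟨x0, hx0⟩ := h1
  refine ⟨⌈x0⌉₊, ?_⟩
  intro n hn
  have h2 : x0 ≤ (n : ℝ) + 1 := by
    have : x0 ≤ (n : ℝ) := (Nat.le_ceil x0).trans (by exact_mod_cast hn)
    linarith
  have h3 := hx0 _ h2
  rw [Real.norm_of_nonneg (by positivity), Real.norm_of_nonneg (Real.exp_pos _).le] at h3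
  have h4 : (2 : ℝ) ^ (C * n) = Real.exp (b * n) := by
    rw [Real.rpow_def_of_pos (by norm_num), hb]
    congr 1
    ring
  have h5 : Real.exp (b * ((n : ℝ) + 1)) = Real.exp (b * n) * Real.exp b := by
    rw [← Real.exp_add]
    congr 1
    ring
  rw [h4]
  rw [h5] at h3
  have h6 : (5 : ℝ) ^ (K + 1) * ((n : ℝ) + 1) ^ 5 ≤
      5 ^ (K + 1) * (1 / (5 ^ (K + 1) * Real.exp b) * (Real.exp (b * n) * Real.exp b)) :=
    mul_le_mul_of_nonneg_left h3 (by positivity)
  refine h6.trans (le_of_eq ?_)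
  have := Real.exp_pos b
  field_simp

end MID

theorem t_MID : Stmt_CNT → Stmt_PAD → Stmt_SC → Stmt_MID := by
  intro hCNT hPAD hSC
  obtain ⟨C, y, s₁, hC, hy0, hy, hs₁, n₁, hnum⟩ := Pool.Agent.Lib_helper39.SRO.stmtNum2
  set δ : ℝ := min (y / 32) (C / 32) with hδ
  have hδ0 : 0 < δ := lt_min (by positivity) (by positivity)
  have hδy : δ ≤ y / 32 := min_le_left _ _
  have hδC : δ ≤ C / 32 := min_le_right _ _
  set K : ℕ := ⌈1 / δ⌉₊ with hK
  have hK1 : 1 < δ * ((K : ℝ) + 1) := by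
    have h1 : 1 / δ ≤ (K : ℝ) := Nat.le_ceil _
    have h2 : 1 ≤ δ * K := by
      rw [div_le_iff₀ hδ0] at h1
      linarith
    nlinarith
  set c : ℝ := min δ (C / (4 * ((K : ℝ) + 1))) with hc
  have hK0 : (0 : ℝ) < (K : ℝ) + 1 := by positivity
  have hc0 : 0 < c := lt_min hδ0 (by positivity)
  have hcδ : c ≤ δ := min_le_left _ _
  have hcK : c * ((K : ℝ) + 1) ≤ C / 4 := by
    have h1 : c ≤ C / (4 * ((K : ℝ) + 1)) := min_le_right _ _
    calc c * ((K : ℝ) + 1) ≤ C / (4 * ((K : ℝ) + 1)) * ((K : ℝ) + 1) :=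
          mul_le_mul_of_nonneg_right h1 hK0.le
      _ = C / 4 := by field_simp
  have hcC : c ≤ C / 4 := by
    have : C / 32 ≤ C / 4 := by linarith
    linarith
  clear_value c
  clear_value K
  clear_value δ
  obtain ⟨n₂, hn₂⟩ := MID.poly_exp (C := C / 4) (by positivity) K
  refine ⟨c, hc0, max (max n₁ n₂) (max 1 ⌈2 / δ⌉₊), ?_⟩
  intro n hn N _ G f m s B hs hG hsound hrig hB hm1 hm hrf hdense
  by_contra hcon
  push Not at hcon
  have hn1 : n₁ ≤ n := ((le_max_left _ _).trans (le_max_left _ _)).trans hn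
  have hn2 : n₂ ≤ n := ((le_max_right _ _).trans (le_max_left _ _)).trans hn
  have hn3 : 1 ≤ n := ((le_max_left _ _).trans (le_max_right _ _)).trans hn
  have hn4 : ⌈2 / δ⌉₊ ≤ n := ((le_max_right _ _).trans (le_max_right _ _)).trans hn
  have hnR : (1 : ℝ) ≤ n := by exact_mod_cast hn3
  have hδn : 2 ≤ δ * n := by
    have h1 : 2 / δ ≤ (n : ℝ) := (Nat.le_ceil _).trans (by exact_mod_cast hn4)
    rw [div_le_iff₀ hδ0] at h1
    linarith
  set h : ℕ := ⌈δ * n⌉₊ with hh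
  have hh1 : δ * n ≤ h := Nat.le_ceil _
  have hh2 : (h : ℝ) < δ * n + 1 := Nat.ceil_lt_add_one (by positivity)
  have hhK : n < h * (K + 1) := by
    have h1 : (n : ℝ) < h * ((K : ℝ) + 1) := by
      have h2 : (n : ℝ) * 1 < n * (δ * ((K : ℝ) + 1)) :=
        mul_lt_mul_of_pos_left hK1 (by linarith)
      have h3 : δ * n * ((K : ℝ) + 1) ≤ h * ((K : ℝ) + 1) :=
        mul_le_mul_of_nonneg_right hh1 hK0.le
      nlinarith
    exact_mod_cast h1
  set a : ℕ := 2 * h + s with ha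
  have haR : (a : ℝ) ≤ 4 * (δ * n) := by
    have h1 : (a : ℝ) = 2 * h + s := by
      rw [ha]
      push_cast
      ring
    have h2 : c * n ≤ δ * n := mul_le_mul_of_nonneg_right hcδ (by linarith)
    rw [h1]
    linarith
  have hδn1 : δ * n ≤ y / 32 * n := mul_le_mul_of_nonneg_right hδy (by linarith)
  have hδn2 : δ * n ≤ C / 32 * n := mul_le_mul_of_nonneg_right hδC (by linarith)
  set n' : ℕ := n + 4 * a with hn'
  have hn'R : (n' : ℝ) = n + 4 * a := by
    rw [hn']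
    push_cast
    ring
  have hnn' : (n : ℝ) ≤ n' := by
    rw [hn'R]
    have : (0 : ℝ) ≤ a := Nat.cast_nonneg a
    linarith
  set w' : ℕ := ⌊(n' : ℝ) * (1 - y) / 4⌋₊ with hw'
  have hw'R : (w' : ℝ) ≤ (n' : ℝ) * (1 - y) / 4 :=
    Nat.floor_le (by
      have : (0 : ℝ) ≤ n' := Nat.cast_nonneg _
      have h1 : 0 ≤ 1 - y := by linarith
      positivity)
  have h4w : 4 * w' ≤ n := by
    have h1 : (4 : ℝ) * w' ≤ n := by
      have h2 : (4 : ℝ) * w' ≤ (n' : ℝ) * (1 - y) := by linarith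
      have h3 : (n' : ℝ) * (1 - y) ≤ n := by
        rw [hn'R]
        have h5 : (0 : ℝ) ≤ a := Nat.cast_nonneg a
        have h6 : 4 * (a : ℝ) ≤ y * n := by
          have h7 : y / 32 * n * 16 = y * n / 2 := by ring
          have h8 : 0 ≤ y * n := by positivity
          linarith
        nlinarith
      linarith
    exact_mod_cast h1
  clear_value h
  obtain ⟨w, P, L, hS, hPf, hw, hwj, hcard⟩ :=
    hCNT n N G f h s K w' B hG hsound hrig hB hhK h4w
  have hw0 : 4 * w' + (n' - 4 * w') = n + 4 * a := by omega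
  obtain ⟨f', P', L', hS', hPc, hPf', hrf'⟩ :=
    hPAD n a w' (n' - 4 * w') m f w P L hS hwj hw hw0 hPf hm1 hrf
  obtain ⟨g1, g2, g3, g4⟩ := hnum n' (hn1.trans (by omega))
  have hmC : (m : ℝ) ≤ 2 ^ (C * (n' : ℝ)) := by
    refine hm.trans (Real.rpow_le_rpow_of_exponent_le one_le_two ?_)
    have h1 : c * n ≤ C * n := mul_le_mul_of_nonneg_right (by linarith) (by linarith)
    have h2 : C * n ≤ C * n' := mul_le_mul_of_nonneg_left hnn' hC.le
    linarith
  refine hSC C y s₁ hC hy0 hy hs₁ n' g1 g2 g3 g4 f' m P' L' hS' hPf' hm1 hmC hrf' ?_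
  -- the counting
  rw [hPc]
  have hN : ((5 : ℝ) * Fintype.card N) ^ (K + 1) ≤ 5 ^ (K + 1) * 2 ^ (C / 4 * n) := by
    rw [mul_pow]
    refine mul_le_mul_of_nonneg_left ?_ (by positivity)
    calc ((Fintype.card N : ℝ)) ^ (K + 1) ≤ ((2 : ℝ) ^ (c * n)) ^ (K + 1) :=
          pow_le_pow_left₀ (Nat.cast_nonneg _) hcon.le _
      _ = 2 ^ (c * n * ((K : ℝ) + 1)) := by
          rw [← Real.rpow_natCast, ← Real.rpow_mul (by norm_num)]
          push_cast
          rfl
      _ ≤ 2 ^ (C / 4 * n) := by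
          refine Real.rpow_le_rpow_of_exponent_le one_le_two ?_
          calc c * n * ((K : ℝ) + 1) = c * ((K : ℝ) + 1) * n := by ring
            _ ≤ C / 4 * n := mul_le_mul_of_nonneg_right hcK (Nat.cast_nonneg n)
  have hcardR : (B.card : ℝ) ≤ (5 * Fintype.card N) ^ (K + 1) * ((n : ℝ) + 1) ^ 5 * P.card := by
    exact_mod_cast hcard
  have hP0 : (0 : ℝ) ≤ P.card := Nat.cast_nonneg _
  have hB1 : (B.card : ℝ) ≤ 2 ^ (C / 4 * n) * 2 ^ (C / 4 * n) * P.card := by
    refine hcardR.trans (mul_le_mul_of_nonneg_right ?_ hP0)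
    calc ((5 : ℝ) * Fintype.card N) ^ (K + 1) * ((n : ℝ) + 1) ^ 5
        ≤ (5 ^ (K + 1) * 2 ^ (C / 4 * n)) * ((n : ℝ) + 1) ^ 5 :=
          mul_le_mul_of_nonneg_right hN (by positivity)
      _ = 2 ^ (C / 4 * n) * (5 ^ (K + 1) * ((n : ℝ) + 1) ^ 5) := by ring
      _ ≤ 2 ^ (C / 4 * n) * 2 ^ (C / 4 * n) :=
          mul_le_mul_of_nonneg_left (hn₂ n hn2) (by positivity)
  have h2n : (2 : ℝ) ^ n ≤ 2 ^ (3 * (C / 4 * n)) * P.card := by
    calc (2 : ℝ) ^ n ≤ 2 ^ (c * n) * B.card := hdense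
      _ ≤ 2 ^ (C / 4 * n) * (2 ^ (C / 4 * n) * 2 ^ (C / 4 * n) * P.card) := by
          refine mul_le_mul ?_ hB1 (Nat.cast_nonneg _) (by positivity)
          exact Real.rpow_le_rpow_of_exponent_le one_le_two
            (mul_le_mul_of_nonneg_right hcC (by linarith))
      _ = 2 ^ (3 * (C / 4 * n)) * P.card := by
          have : (2 : ℝ) ^ (3 * (C / 4 * n)) =
              2 ^ (C / 4 * n) * (2 ^ (C / 4 * n) * 2 ^ (C / 4 * n)) := by
            rw [← Real.rpow_add (by norm_num), ← Real.rpow_add (by norm_num)]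
            congr 1
            ring
          rw [this]
          ring
  have h4a : (2 : ℝ) ^ (4 * a) ≤ 2 ^ (C / 2 * n) := by
    rw [← Real.rpow_natCast]
    refine Real.rpow_le_rpow_of_exponent_le one_le_two ?_
    push_cast
    linarith
  calc (2 : ℝ) ^ n' = 2 ^ n * 2 ^ (4 * a) := by rw [hn', pow_add]
    _ ≤ (2 ^ (3 * (C / 4 * n)) * P.card) * 2 ^ (C / 2 * n) :=
        mul_le_mul h2n h4a (by positivity) (by positivity)
    _ = 2 ^ (3 * (C / 4 * n) + C / 2 * n) * P.card := by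
        rw [Real.rpow_add (by norm_num)]
        ring
    _ ≤ 2 ^ (5 * C * n') * P.card := by
        refine mul_le_mul_of_nonneg_right ?_ hP0
        refine Real.rpow_le_rpow_of_exponent_le one_le_two ?_
        have h2 : C * n ≤ C * n' := mul_le_mul_of_nonneg_left hnn' hC.le
        have h3 : 0 ≤ C * n := by positivity
        have h4 : 5 * C * n' = 5 * (C * n') := by ring
        rw [h4]
        linarith

end Pool.Agent.CFT
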