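import Pool.Agent.CFT.Stmts

/-!
CFT project, module PAD: exact widths by dummy variables.
-/

set_option autoImplicit false

namespace Pool.Agent.CFT

open Finset Pool.Agent.Lib_helper20.SRO

namespace PAD

/-- restriction to the first coordinates -/
def res {n k : ℕ} (b : Fin (n + k) → Bool) : Fin n → Bool := fun x => b (Fin.castAdd k x)

/-- extension by `false` -/
def emb {n k : ℕ} (p : Fin n → Bool) : Fin (n + k) → Bool := Fin.append p (fun _ => false)

lemma emb_left {n k : ℕ} (p : Fin n → Bool) (x : Fin n) :
    (emb p : Fin (n + k) → Bool) (Fin.castAdd k x) = p x := by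
  simp [emb]

lemma emb_right {n k : ℕ} (p : Fin n → Bool) (x : Fin k) :
    (emb p : Fin (n + k) → Bool) (Fin.natAdd n x) = false := by
  simp [emb]

lemma res_emb {n k : ℕ} (p : Fin n → Bool) : res (emb p : Fin (n + k) → Bool) = p := by
  funext x
  simp [res, emb_left]

lemma emb_inj {n k : ℕ} : Function.Injective (emb : (Fin n → Bool) → Fin (n + k) → Bool) := by
  intro p q h
  rw [← res_emb (k := k) p, h, res_emb]

/-- labels -/
def lab {n k : ℕ} (L : (Fin n → Bool) → Fin n → Fin 5) (lam : Fin k → Fin 5)
    (b : Fin (n + k) → Bool) : Fin (n + k) → Fin 5 := Fin.append (L (res b)) lam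

lemma lab_left {n k : ℕ} (L : (Fin n → Bool) → Fin n → Fin 5) (lam : Fin k → Fin 5)
    (b : Fin (n + k) → Bool) (x : Fin n) : lab L lam b (Fin.castAdd k x) = L (res b) x := by
  simp [lab]

lemma lab_right {n k : ℕ} (L : (Fin n → Bool) → Fin n → Fin 5) (lam : Fin k → Fin 5)
    (b : Fin (n + k) → Bool) (x : Fin k) : lab L lam b (Fin.natAdd n x) = lam x := by
  simp [lab]

/-- a map with prescribed sizes of the fibres -/
lemma exists_lam (k : ℕ) (d : Fin 5 → ℕ) (h : ∑ j, d j = k) :
    ∃ lam : Fin k → Fin 5, ∀ j, (univ.filter (fun x => lam x = j)).card = d j := by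
  classical
  have hc : Fintype.card (Σ j : Fin 5, Fin (d j)) = Fintype.card (Fin k) := by
    rw [Fintype.card_sigma, Fintype.card_fin, ← h]
    simp
  let e : (Σ j : Fin 5, Fin (d j)) ≃ Fin k := Fintype.equivOfCardEq hc
  refine ⟨fun x => (e.symm x).1, fun j => ?_⟩
  have h1 : (univ.filter (fun x : Fin k => (e.symm x).1 = j)) =
      (univ : Finset (Fin (d j))).image (fun i => e ⟨j, i⟩) := by
    ext x
    simp only [mem_filter, mem_univ, true_and, mem_image]
    constructor
    · intro hx
      subst hx
      exact ⟨(e.symm x).2, by simp⟩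
    · rintro ⟨i, rfl⟩
      simp
  rw [h1, card_image_of_injective, card_univ, Fintype.card_fin]
  intro i i' hi
  have := e.injective hi
  simpa using this

lemma card_filter_add {n k : ℕ} (p : Fin (n + k) → Prop) [DecidablePred p] :
    (univ.filter p).card = (univ.filter (fun x : Fin n => p (Fin.castAdd k x))).card +
      (univ.filter (fun x : Fin k => p (Fin.natAdd n x))).card := by
  simp only [card_filter]
  rw [Fin.sum_univ_add]

end PAD

open PAD

theorem t_PAD : Stmt_PAD := by
  classical
  intro n a w' w0 m f w P L hS hw hn hW hP hm hf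
  set W : Fin 5 → ℕ := fun j => if j = 4 then w0 else w' with hWdef
  have hle : ∀ j, w j ≤ W j := by
    intro j
    by_cases hj : j = 4
    · subst hj
      have h0 := (hw 0 (by decide)).2
      have h1 := (hw 1 (by decide)).2
      have h2 := (hw 2 (by decide)).2
      have h3 := (hw 3 (by decide)).2
      rw [Fin.sum_univ_five] at hn
      simp only [hWdef, if_true]
      omega
    · simp only [hWdef, if_neg hj]
      exact (hw j hj).1
  have hsum : ∑ j, (W j - w j) = 4 * a := by
    have h1 : ∑ j, (W j - w j) + ∑ j, w j = ∑ j, W j := by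
      rw [← sum_add_distrib]
      exact sum_congr rfl fun j _ => Nat.sub_add_cancel (hle j)
    have h2 : ∑ j, W j = 4 * w' + w0 := by
      rw [Fin.sum_univ_five]
      have e0 : W 0 = w' := if_neg (by decide)
      have e1 : W 1 = w' := if_neg (by decide)
      have e2 : W 2 = w' := if_neg (by decide)
      have e3 : W 3 = w' := if_neg (by decide)
      have e4 : W 4 = w0 := if_pos rfl
      rw [e0, e1, e2, e3, e4]
      ring
    omega
  obtain ⟨lam, hlam⟩ := exists_lam (4 * a) (fun j => W j - w j) hsum
  refine ⟨fun b => f (res b) && decide (∀ x : Fin (4 * a), b (Fin.natAdd n x) = false),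
    P.image emb, lab L lam, ⟨?_, ?_⟩, ?_, ?_, ?_⟩
  · intro b hb j
    obtain ⟨p, hp, rfl⟩ := mem_image.1 hb
    rw [card_filter_add]
    simp only [lab_left, lab_right, res_emb]
    rw [hS.card p hp j, hlam j]
    have := hle j
    show w j + (W j - w j) = W j
    omega
  · intro b hb b' hb' A hA
    obtain ⟨p, hp, rfl⟩ := mem_image.1 hb
    obtain ⟨p', hp', rfl⟩ := mem_image.1 hb'
    obtain ⟨h1, h2, h3⟩ := hS.mix p hp p' hp' A (fun x hx hx' => by
      have := hA (Fin.castAdd _ x) (by rwa [lab_left, res_emb]) (by rwa [lab_left, res_emb])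
      rwa [emb_left, emb_left] at this)
    have hmix : (fun x => if lab L lam (emb p) x ∈ A then (emb p : Fin (n + 4 * a) → Bool) x
        else emb p' x) = emb (fun x => if L p x ∈ A then p x else p' x) := by
      funext x
      refine Fin.addCases (fun y => ?_) (fun y => ?_) x
      · simp only [lab_left, res_emb, emb_left]
      · simp only [lab_right, emb_right, ite_self]
    refine ⟨fun x => ?_, ?_, fun x => ?_⟩
    · refine Fin.addCases (fun y => ?_) (fun y => ?_) x
      · rw [lab_left, lab_left, res_emb, res_emb]
        exact h1 y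
      · rw [lab_right, lab_right]
    · rw [hmix]
      exact mem_image_of_mem _ h2
    · rw [hmix]
      refine Fin.addCases (fun y => ?_) (fun y => ?_) x
      · simp only [lab_left, res_emb]
        exact h3 y
      · simp only [lab_right, ite_self]
  · exact card_image_of_injective _ emb_inj
  · intro b hb
    obtain ⟨p, hp, rfl⟩ := mem_image.1 hb
    simp only [res_emb, hP p hp, Bool.true_and, decide_eq_true_eq]
    intro x
    exact emb_right p x
  · intro U X Y hX hY hXm hYm
    by_cases c1 : ∃ p ∈ X, ∃ x : Fin (4 * a), p (Fin.natAdd n x) = true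
    · obtain ⟨p, hp, x, hx⟩ := c1
      obtain ⟨q, hq⟩ := card_pos.1 (lt_of_lt_of_le (by omega : 0 < m) hYm)
      refine ⟨p, hp, q, hq, ?_⟩
      have hxU : Fin.natAdd n x ∈ U := by
        by_contra hxU
        rw [hX p hp _ hxU] at hx
        exact Bool.false_ne_true hx
      rw [Bool.and_eq_false_iff]
      right
      rw [decide_eq_false_iff_not]
      intro hall
      have := hall x
      simp only [if_pos hxU] at this
      rw [hx] at this
      exact Bool.false_ne_true this.symm
    by_cases c2 : ∃ q ∈ Y, ∃ x : Fin (4 * a), q (Fin.natAdd n x) = true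
    · obtain ⟨q, hq, x, hx⟩ := c2
      obtain ⟨p, hp⟩ := card_pos.1 (lt_of_lt_of_le (by omega : 0 < m) hXm)
      refine ⟨p, hp, q, hq, ?_⟩
      have hxU : Fin.natAdd n x ∉ U := by
        intro hxU
        rw [hY q hq _ hxU] at hx
        exact Bool.false_ne_true hx
      rw [Bool.and_eq_false_iff]
      right
      rw [decide_eq_false_iff_not]
      intro hall
      have := hall x
      simp only [if_neg hxU] at this
      rw [hx] at this
      exact Bool.false_ne_true this.symm
    have inj : ∀ Z : Finset (Fin (n + 4 * a) → Bool),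
        (¬ ∃ p ∈ Z, ∃ x : Fin (4 * a), p (Fin.natAdd n x) = true) →
        (Z.image res).card = Z.card := by
      intro Z hZ
      apply card_image_of_injOn
      intro p hp q hq hpq
      funext x
      refine Fin.addCases (fun y => ?_) (fun y => ?_) x
      · exact congrFun hpq y
      · have h1 : p (Fin.natAdd n y) = false := by
          by_contra h
          exact hZ ⟨p, hp, y, by simpa using h⟩
        have h2 : q (Fin.natAdd n y) = false := by
          by_contra h
          exact hZ ⟨q, hq, y, by simpa using h⟩
        rw [h1, h2]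
    obtain ⟨p, hp, q, hq, hpq⟩ := hf (univ.filter (fun x : Fin n => Fin.castAdd (4 * a) x ∈ U))
      (X.image res) (Y.image res)
      (by
        intro p hp x hx
        obtain ⟨p', hp', rfl⟩ := mem_image.1 hp
        simp only [mem_filter, mem_univ, true_and] at hx
        exact hX p' hp' _ hx)
      (by
        intro p hp x hx
        obtain ⟨p', hp', rfl⟩ := mem_image.1 hp
        simp only [mem_filter, mem_univ, true_and] at hx
        exact hY p' hp' _ hx)
      (by rwa [inj X c1]) (by rwa [inj Y c2])
    obtain ⟨p', hp', rfl⟩ := mem_image.1 hp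
    obtain ⟨q', hq', rfl⟩ := mem_image.1 hq
    refine ⟨p', hp', q', hq', ?_⟩
    rw [Bool.and_eq_false_iff]
    left
    rw [← hpq]
    congr 1
    funext x
    simp only [res, mem_filter, mem_univ, true_and]

end Pool.Agent.CFT
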