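import Pool.Agent.CFT.ASM
import Pool.Agent.CFT.CUT
import Pool.Agent.CFT.GRP
import Pool.Agent.CFT.E5
import Pool.Agent.CFT.PAD
import Pool.Agent.CFT.SC
import Pool.Agent.CFT.CNT
import Pool.Agent.CFT.MID
import Pool.Agent.CFT.FIX
import Pool.Agent.CFT.MID2
import Pool.Agent.CFT.AVG
import Pool.Agent.CFT.LOW

/-!
# The core lower bound for fork programs, without hypotheses
-/

set_option autoImplicit false

namespace Pool.Agent.CFT

open Pool.Agent.Lib_helper20.SRO Pool.Agent.URG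
open Pool.Agent.HPM.Fn (Coord)

theorem cnt_all : Stmt_CNT := t_CNT t_ASM t_CUT t_GRP t_E5

theorem mid_all : Stmt_MID := t_MID cnt_all t_PAD t_SC

theorem mid2_all : Stmt_MID2 := t_MID2 mid_all t_FIX

theorem avg_all : Stmt_AVG := t_AVG mid2_all t_FIX

/-- The core lower bound for fork programs. -/
theorem core_all : ∃ c : ℝ, 0 < c ∧ c ≤ 1 ∧ ∃ n0 : ℕ, ∀ n ≥ n0,
    ∀ (e L : ℕ) (β : Coord (deg n e)),
    (∀ r : ℕ, (r : ℝ) ≤ c * (n * L) → Num c n e L r) →
    CoreP c n L (goodA (L := L) β) ∧ CoreP c n L (goodF (L := L) β) ∧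
      CoreP c n L (fun v : VarG n e L → Bool => !goodF β v) :=
  t_coreP avg_all

end Pool.Agent.CFT
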