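import Pool.Agent.CFT.Defs
import Pool.Agent.URG.Avg

/-!
# Fork programs: the statements of the modules

The paper proof is in note IDEA2 MP_a77cad_lc. Every module may use the statements of the others as
hypotheses, in the form given here.
-/

set_option autoImplicit false

namespace Pool.Agent.CFT

open Finset Pool.Agent.Lib_helper20.SRO

/-- `Ctx G S v l`: there is a tree from `v` with the tests `l` whose open leaves are nodes in `S`. -/
inductive Ctx {V N : Type} (G : FP V N) (S : N → Prop) : N → List (V × Bool) → Prop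
  | hole {v : N} : S v → Ctx G S v []
  | fin {v : N} : G.fin v → Ctx G S v []
  | edge {v u : N} {t l : List (V × Bool)} : G.edge v t u → Ctx G S u l → Ctx G S v (t ++ l)
  | fork {v u w : N} {l₁ l₂ : List (V × Bool)} : G.fork v u w → Ctx G S u l₁ → Ctx G S w l₂ →
      Ctx G S v (l₁ ++ l₂)

/-- Pieces: the open leaves of the piece `i` are roots of later pieces. -/
def Dec {V N : Type} (G : FP V N) {K : ℕ} (root : Fin K → N) (ls : Fin K → List (V × Bool)) :
    Prop :=
  ∀ i, Ctx G (fun u => ∃ j, i < j ∧ root j = u) (root i) (ls i)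

/-- ASM: assembling the pieces.
Proof. Downward induction on `i` (for example `i = K - d`, induction on `d`, or strong induction on
`K - i`): for a context `Ctx G S v l` such that every node `u` in `S` has a tree all of whose tests
belong to some `ls j`, and all tests of `l` belong to some `ls j`, there is a tree from `v` all of
whose tests belong to some `ls j` (induction on the context). -/
def Stmt_ASM : Prop := ∀ (V N : Type) (G : FP V N) (K : ℕ) (root : Fin K → N)
  (ls : Fin K → List (V × Bool)), Dec G root ls →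
  ∀ i, ∃ l, Der G (root i) l ∧ ∀ p ∈ l, ∃ j, p ∈ ls j

/-- CUT: every tree can be cut into few pieces.
Proof. For a list `F : List (N × List (V × Bool))` let `Pieces G F` be defined by recursion:
`Pieces G [] = True`, `Pieces G ((q, l) :: F) = (Ctx G (fun u => u ∈ F.map Prod.fst) q l ∧
Pieces G F)`. Contexts are monotone in `S`, so `Pieces G F₁`, `Pieces G F₂` imply
`Pieces G (F₁ ++ F₂)`. Claim (`0 < h`; induction on `Der G v l`): there are `F`, `l₀` with
`Ctx G (· ∈ F.map Prod.fst) v l₀`, `Pieces G F`, `l₀.length < h`, `h ≤ p.2.length ≤ 2 h + s` for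
`p ∈ F`, and `(l₀ ++ (F.map Prod.snd).flatten).Perm l` (or: equal lengths and all tests of the
`l₀`, `p.2` are in `l`).
`fin`: `F = []`, `l₀ = []`. `edge`: from `F`, `l₀` for `u` we get the context `t ++ l₀` for `v`, of
length `< h + s`; if it is `< h`, keep it; otherwise close it: `F' = (v, t ++ l₀) :: F`, new open
part `[]` (the hole `v`). `fork`: from `F₁, l₁` and `F₂, l₂` we get the context `l₁ ++ l₂` for `v`,
`S` = nodes of `F₁ ++ F₂`, length `< 2 h`; keep it if `< h`, otherwise close it in the same way.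
At the end `F' = (v, l₀) :: F` has at most `K + 1` elements (`h * F.length ≤ l.length`); put copies
of `(v, [])` in front (a hole, `v` is the root of the next piece) until there are exactly `K + 1`,
and read off `root`, `ls` (induction, or `List.get`). -/
def Stmt_CUT : Prop := ∀ (V N : Type) (G : FP V N) (h s K : ℕ) (v : N) (l : List (V × Bool)),
  G.Block s → Der G v l → l.length < h * (K + 1) →
  ∃ (root : Fin (K + 1) → N) (ls : Fin (K + 1) → List (V × Bool)), root 0 = v ∧ Dec G root ls ∧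
    (∀ i, (ls i).length ≤ 2 * h + s) ∧ ∑ i, (ls i).length = l.length ∧ ∀ i, ∀ p ∈ ls i, p ∈ l

/-- GRP: four groups of about the same weight.
Proof. If `S` is a finite set and `w ≤ ∑ i ∈ S, u i` then some `T ⊆ S` has
`∑ i ∈ T, u i ≤ w ≤ ∑ i ∈ T, u i + a`: take `T ⊆ S` with `∑ T ≤ w` of maximal cardinality; if
`T ≠ S` add an element. Apply this four times (the rest has weight `≥ 3 w`, `≥ 2 w`, `≥ w`). -/
def Stmt_GRP : Prop := ∀ (K a w : ℕ) (u : Fin K → ℕ), (∀ i, u i ≤ a) → 4 * w ≤ ∑ i, u i →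
  ∃ γ : Fin K → Fin 5, ∀ j, j ≠ 4 →
    ∑ i ∈ univ.filter (fun i => γ i = j), u i ≤ w ∧
    w ≤ ∑ i ∈ univ.filter (fun i => γ i = j), u i + a

/-- E5: the mixing property of a product family.
Proof. Port of `stmtE2` (Lib_helper20/SRO/E2.lean, Lib_helper45/SRO/E.lean). `Good b s` :
`∀ j, F j (s j) ∧ (s j).length = w j ∧ Agrees b (s j)`. If `Good b s` then `f b = true` and every
variable is tested in some `s j` (otherwise flip it: `Rigid`), and as the total length is `n`, every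
variable is tested exactly once (all lists of variables are duplicate free, and a variable is in
one of them only). If `Good b s`, `Good b s'` then `Good b (fun k => if k = i then s k else s' k)`,
so the label `L b x` = the `j` with `x` tested in `s j` does not depend on `s`. Hybrids: as in E2. -/
def Stmt_E5 : Prop := ∀ (n : ℕ) (f : (Fin n → Bool) → Bool) (w : Fin 5 → ℕ)
  (F : Fin 5 → List (Fin n × Bool) → Prop) (P : Finset (Fin n → Bool)), Rigid f → ∑ j, w j = n →
  (∀ (s : Fin 5 → List (Fin n × Bool)) (b : Fin n → Bool),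
    (∀ j, F j (s j) ∧ (s j).length = w j ∧ Agrees b (s j)) → f b = true) →
  (∀ b, b ∈ P ↔ ∃ s : Fin 5 → List (Fin n × Bool),
    ∀ j, F j (s j) ∧ (s j).length = w j ∧ Agrees b (s j)) →
  ∃ L : (Fin n → Bool) → Fin n → Fin 5, Sys P L w

/-- PAD: exact widths by dummy variables.
Proof. Identify `Fin (n + 4 a)` with `Fin n ⊕ Fin (4 a)` (`finSumFinEquiv`, `Fin.addCases`). Let
`d j = (if j = 4 then w0 else w') - w j`; all these are `≥ 0` (for `j = 4`:
`w 4 = n - ∑_{j < 4} w j ≤ n - 4 (w' - a) = w0`), with sum `4 a`; take `lam : Fin (4 a) → Fin 5`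
with fibres of size `d j` (an equivalence of `Fin (4 a)` with `Σ j, Fin (d j)`). `P'` = the
inputs whose dummies are `false` and whose restriction to `Fin n` is in `P`; `L' b` = `L` of the
restriction on the variables, `lam` on the dummies; `f' b` = all dummies are false and `f` of the
restriction. `RectFree f' m`: if some `a ∈ X` or `a' ∈ Y` has a dummy (in `U`, resp. not in `U`) that
is `true` then `f'` is false for the pair of this one and any other one (`m ≥ 1`). Otherwise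
restrict `X`, `Y` to `Fin n` (injective on `X`, `Y`). -/
def Stmt_PAD : Prop := ∀ (n a w' w0 m : ℕ) (f : (Fin n → Bool) → Bool) (w : Fin 5 → ℕ)
  (P : Finset (Fin n → Bool)) (L : (Fin n → Bool) → Fin n → Fin 5), Sys P L w →
  (∀ j, j ≠ 4 → w j ≤ w' ∧ w' ≤ w j + a) → ∑ j, w j = n → 4 * w' + w0 = n + 4 * a →
  (∀ b ∈ P, f b = true) → 1 ≤ m → RectFree f m →
  ∃ (f' : (Fin (n + 4 * a) → Bool) → Bool) (P' : Finset (Fin (n + 4 * a) → Bool))
    (L' : (Fin (n + 4 * a) → Bool) → Fin (n + 4 * a) → Fin 5),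
    Sys P' L' (fun j => if j = 4 then w0 else w') ∧ P'.card = P.card ∧
    (∀ b ∈ P', f' b = true) ∧ RectFree f' m

/-- SC: the core of the lower bound, from the system. The proof is the part of
`core3_aux` (Lib_helper20/SRO/Core3.lean) after `obtain ⟨P, L, hS, hPf, hcard⟩`, with
`StmtC`, `StmtD` proved (`Pool.Agent.Lib_helper45.SRO.stmtC`, `stmtD`). -/
def Stmt_SC : Prop := ∀ (c y s : ℝ), 0 < c → 0 < y → y ≤ 1 / 4 → 0 < s → ∀ (n : ℕ),
  32 * Real.exp (6 * c * n * Real.log 2 - n * y ^ 2 / 5) ≤ 1 / 4 →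
  6 * (Real.log 2 * ((y * n + 4) + 2 * y * n) + 3 * (5 * c * n * Real.log 2) / y +
      5 * c * n * Real.log 2 + 4 * (c * n * Real.log 2) +
      32 * Real.exp (6 * c * n * Real.log 2 - n * y ^ 2 / 5) * n * Real.log 2) / s ^ 2 +
      4 * s * n + (y * n + 4) ≤ n / 20 →
  4 * ((2 : ℝ) ^ (c * n)) ^ 4 * (Real.sqrt 2 * (9 / 8)) ^ n <
      2 ^ n * Real.exp (-(5 * c * n * Real.log 2)) →
  y * n + 4 ≤ n * (1 - y) / 2 →
  ∀ (f : (Fin n → Bool) → Bool) (m : ℕ) (P : Finset (Fin n → Bool))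
    (L : (Fin n → Bool) → Fin n → Fin 5),
    Sys P L (fun j => if j = 4 then n - 4 * ⌊(n : ℝ) * (1 - y) / 4⌋₊
      else ⌊(n : ℝ) * (1 - y) / 4⌋₊) →
    (∀ b ∈ P, f b = true) → 1 ≤ m → (m : ℝ) ≤ 2 ^ (c * n) → RectFree f m →
    (2 : ℝ) ^ n ≤ 2 ^ (5 * c * n) * P.card → False

/-- CNT: from read-once trees to a system.
Proof. Hypotheses `Stmt_ASM`, `Stmt_CUT`, `Stmt_GRP`, `Stmt_E5`. For `b ∈ B` the tree tests every
variable (flip an untested one: `Rigid`), so `l.length = n`. `CUT` gives `root`, `ls`; `GRP` with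
`u i = (ls i).length`, `a = 2 h + s` gives `γ`; let `w j = ∑ i with γ i = j, u i`. For given
`root` with `root 0 = G.source`, `γ` and `w` let `F j s' := ∃ ls, ∀ i, γ i = j →
Ctx G (fun u => ∃ j', i < j' ∧ root j' = u) (root i) (ls i) ∧ ∀ p ∈ ls i, p ∈ s'` and
`P(root, γ, w)` as in `E5`. The hypothesis of `E5`: given `s j` in `F j` by `ls_j`, the lists
`ls i := ls_(γ i) i` are pieces, so by `ASM` there is a tree from the source whose tests are in
some `s j`; so `b` is accepted. And `b ∈ P(root, γ, w)` by `s j` = the concatenation of the `ls i`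
with `γ i = j`. There are at most `(5 |N|)^(K+1) (n+1)^5` triples (`w j ≤ n`); take the one with
the largest `P`. If `B` is empty, take `P = ∅`, `w j = w'` for `j ≠ 4`. -/
def Stmt_CNT : Prop := ∀ (n : ℕ) (N : Type) [Fintype N] (G : FP (Fin n) N)
  (f : (Fin n → Bool) → Bool) (h s K w' : ℕ) (B : Finset (Fin n → Bool)), G.Block s →
  (∀ b, G.Accepts b → f b = true) → Rigid f →
  (∀ b ∈ B, ∃ l, Der G G.source l ∧ Agrees b l ∧ (l.map Prod.fst).Nodup) →
  n < h * (K + 1) → 4 * w' ≤ n →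
  ∃ (w : Fin 5 → ℕ) (P : Finset (Fin n → Bool)) (L : (Fin n → Bool) → Fin n → Fin 5),
    Sys P L w ∧ (∀ b ∈ P, f b = true) ∧ ∑ j, w j = n ∧
    (∀ j, j ≠ 4 → w j ≤ w' ∧ w' ≤ w j + (2 * h + s)) ∧
    B.card ≤ (5 * Fintype.card N) ^ (K + 1) * (n + 1) ^ 5 * P.card

/-- MID: the lower bound for read-once trees.
Proof. Hypotheses `Stmt_CNT`, `Stmt_PAD`, `Stmt_SC`, and the landed `StmtNum2` (a proof of it is used
in URG/Core4.lean: `t_core4`). Let `c₁, y, s₁, n₁` be the constants of `StmtNum2`. Let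
`δ = min (y / 32) (c₁ / 32)`, `K + 1 > 1 / δ` (so `n < h (K + 1)` for `h = ⌈δ n⌉`), `c` small:
`c ≤ δ`, `c (K + 1) ≤ c₁ / 4`, `c ≤ c₁ / 4`. For large `n`: `a = 2 h + s ≤ 4 δ n`,
`n'' = n + 4 a ≤ 2 n`, `w' = ⌊n'' (1 - y) / 4⌋`, `4 w' ≤ n` (`4 a ≤ y n`), `w0 = n'' - 4 w'`.
Suppose `|N| < 2^(c n)`. `CNT` and `PAD` give `P'` with
`2^n ≤ 2^(c n) |B| ≤ 2^(c n) (5 |N|)^(K+1) (n+1)^5 |P'|`, so (`5^(K+1) (n+1)^5 ≤ 2^(c₁ n / 4)` for
large `n`) `2^(n'') ≤ 2^(4 a + 3 c₁ n / 4 + c n) |P'| ≤ 2^(5 c₁ n'') |P'|`. Apply `SC` with `n''`;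
`m ≤ 2^(c n) ≤ 2^(c₁ n'')`. -/
def Stmt_MID : Prop := ∃ c : ℝ, 0 < c ∧ ∃ n0 : ℕ, ∀ n ≥ n0, ∀ (N : Type) [Fintype N]
  (G : FP (Fin n) N) (f : (Fin n → Bool) → Bool) (m s : ℕ) (B : Finset (Fin n → Bool)),
  (s : ℝ) ≤ c * n → G.Block s → (∀ b, G.Accepts b → f b = true) → Rigid f →
  (∀ b ∈ B, ∃ l, Der G G.source l ∧ Agrees b l ∧ (l.map Prod.fst).Nodup) →
  1 ≤ m → (m : ℝ) ≤ 2 ^ (c * n) → RectFree f m →
  (2 : ℝ) ^ n ≤ 2 ^ (c * n) * B.card → (2 : ℝ) ^ (c * n) ≤ Fintype.card N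

open Classical in
/-- the tests of variables in the range of `ι` -/
noncomputable def restr {V : Type} {k : ℕ} (ι : Fin k → V) (t : List (V × Bool)) :
    List (Fin k × Bool) :=
  t.filterMap fun p => if h : ∃ x, ι x = p.1 then some (h.choose, p.2) else none

/-- the program with the variables outside the range of `ι` fixed -/
noncomputable def fixF {V N : Type} {k : ℕ} (G : FP V N) (ι : Fin k → V) (a : V → Bool) :
    FP (Fin k) N where
  source := G.source
  edge v t' u := ∃ t, G.edge v t u ∧ (∀ p ∈ t, (∀ x, ι x ≠ p.1) → p.2 = a p.1) ∧ t' = restr ι t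
  fork := G.fork
  fin := G.fin

/-- FIX: fixing variables.
Proof. As in Lib_helper20/SRO/R3.lean. `restr ι (l₁ ++ l₂) = restr ι l₁ ++ restr ι l₂`,
`(restr ι l).length ≤ l.length`, counts by induction on the list; trees by induction. -/
def Stmt_FIX : Prop := ∀ (V N : Type) [DecidableEq V] (k : ℕ) (G : FP V N) (ι : Fin k → V)
  (a : V → Bool), Function.Injective ι →
  (∀ b, (fixF G ι a).Accepts b ↔ G.Accepts (ext ι a b)) ∧
  (∀ s, G.Block s → (fixF G ι a).Block s) ∧
  (∀ v l, Der G v l → (∀ p ∈ l, (∀ x, ι x ≠ p.1) → p.2 = a p.1) →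
    Der (fixF G ι a) v (restr ι l)) ∧
  (∀ b l, Agrees (ext ι a b) l → Agrees b (restr ι l)) ∧
  ∀ (l : List (V × Bool)) (x : Fin k),
    ((restr ι l).map Prod.fst).count x = (l.map Prod.fst).count (ι x)

/-- MID2: the lower bound for trees with few rereads.
Proof. Hypotheses `Stmt_MID`, `Stmt_FIX`. Port of `core4` (URG/Core4.lean; `choose_R'` with
`Der G G.source l` in place of `Walk G G.source G.sink l`). -/
def Stmt_MID2 : Prop := ∃ c : ℝ, 0 < c ∧ ∃ n0 : ℕ, ∀ n ≥ n0, ∀ (N : Type) [Fintype N]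
  (G : FP (Fin n) N) (f : (Fin n → Bool) → Bool) (m r s : ℕ) (B0 : Finset (Fin n → Bool)),
  (r : ℝ) ≤ c * n → (s : ℝ) ≤ c * n → G.Block s → (∀ b, G.Accepts b → f b = true) → Rigid f →
  (∀ b ∈ B0, ∃ l, Der G G.source l ∧ Agrees b l ∧
    (univ.filter (fun x => 2 ≤ (l.map Prod.fst).count x)).card ≤ r) →
  1 ≤ m → (m : ℝ) ≤ 2 ^ (c * n) → RectFree f m →
  (2 : ℝ) ^ n ≤ 2 ^ (c * n) * B0.card → (2 : ℝ) ^ (c * n) ≤ Fintype.card N

/-- AVG: from one point to many points.
Proof. Hypotheses `Stmt_MID2`, `Stmt_FIX`. Port of `t_lowG` (URG/Avg.lean), with `pigeon`,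
`ext_unc`, `unc` used as they are. -/
def Stmt_AVG : Prop := ∃ c : ℝ, 0 < c ∧ c ≤ 1 ∧ ∃ n0 : ℕ, ∀ n ≥ n0, ∀ (L m r s : ℕ) (W Q : Type)
    [Fintype Q] [DecidableEq W] (G : FP (W ⊕ (Fin L × Fin n)) Q) (w : W → Bool)
    (g : (Fin n → Bool) → Bool), 1 ≤ L → Rigid g → RectFree g m → 1 ≤ m →
    (m : ℝ) ≤ 2 ^ (c * n) →
    (2 : ℝ) ^ n * L ≤ 2 ^ (c * n) * (univ.filter fun x => g x = true).card →
    (r : ℝ) ≤ c * (n * L) → (s : ℝ) ≤ c * n → G.Block s →
    (∀ b : Fin L × Fin n → Bool, G.Accepts (Sum.elim w b) ↔ ∀ l, g (fun j => b (l, j)) = true) →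
    (∀ b : Fin L × Fin n → Bool, G.Accepts (Sum.elim w b) → ∃ l, Der G G.source l ∧
      Agrees (Sum.elim w b) l ∧
      (univ.filter fun p : Fin L × Fin n => 2 ≤ URG.cnt l (Sum.inr p)).card ≤ r) →
    (2 : ℝ) ^ (c * n) ≤ Fintype.card Q

end Pool.Agent.CFT
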